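import Mathlib

/-!
# GCP-Avg: the average over the tuples of parts (Mathlib only)

PLAN. `∑ τ ∈ piFinset (fun _ => s), ∏ i, f (τ i) = (∑ U ∈ s, f U) ^ m` (`Finset.prod_univ_sum` with `Finset.prod_const`, `Finset.card_univ`, `Fintype.card_fin`), `s = P.parts`,
`f U = (U \ T).card / U.card ≥ 0`. So it is enough that `∑ U ∈ P.parts, f U ≤ (1 - e / 2) * M`, `M = P.parts.card` (then `pow_le_pow_left₀`).
`f U = 1 - (U ∩ T).card / U.card` (`U` nonempty: `P.nonempty_of_mem_parts`), and `U.card ≤ n / M + 1 ≤ 2 n / M` (real division; `Finpartition.IsEquipartition.card_part_le_average_add_one`, `Finset.card_univ`, and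
`M ≤ n` : `Finpartition.card_parts_le_card`), so `(U ∩ T).card / U.card ≥ (U ∩ T).card * M / (2 n)`. Summing: `∑ U, (U ∩ T).card = T.card` (the parts partition `univ`: `P.sum_card_parts` for the restriction, or
`Finset.card_biUnion`/`Finpartition.sum_card_parts`-like argument: `T = P.parts.biUnion (· ∩ T)`), so `∑ f ≤ M - M * T.card / (2 n) ≤ M (1 - e / 2)`.
`M ≥ 1` and `n > 0` (if `P.parts` is empty then `univ` is empty, excluded by `0 < n`).
-/

set_option autoImplicit false

open Finset

namespace GCP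

theorem avg {n : ℕ} (hn : 0 < n) (P : Finpartition (univ : Finset (Fin n))) (hP : P.IsEquipartition)
    (m : ℕ) (T : Finset (Fin n)) (e : ℝ) (he : e * n ≤ T.card) :
    ∑ τ ∈ Fintype.piFinset (fun _ : Fin m => P.parts),
      ∏ i, (((τ i \ T).card : ℝ) / ((τ i).card : ℝ)) ≤ ((1 - e / 2) * P.parts.card) ^ m := by
  classical
  have h1 : ∑ τ ∈ Fintype.piFinset (fun _ : Fin m => P.parts),
      ∏ i, (((τ i \ T).card : ℝ) / ((τ i).card : ℝ)) =
      (∑ U ∈ P.parts, ((U \ T).card : ℝ) / (U.card : ℝ)) ^ m := by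
    have h2 := Finset.prod_univ_sum (fun _ : Fin m => P.parts)
      (fun (_ : Fin m) (U : Finset (Fin n)) => ((U \ T).card : ℝ) / (U.card : ℝ))
    rw [← h2, Finset.prod_const, Finset.card_univ, Fintype.card_fin]
  rw [h1]
  refine pow_le_pow_left₀ (Finset.sum_nonneg fun U _ => by positivity) ?_ m
  have hMn : P.parts.card ≤ n := by
    have h2 := P.card_parts_le_card
    rwa [card_univ, Fintype.card_fin] at h2
  have hM0 : 0 < P.parts.card := by
    rw [card_pos, Finset.nonempty_iff_ne_empty]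
    intro h2
    have h3 := P.sum_card_parts
    rw [h2, sum_empty, card_univ, Fintype.card_fin] at h3
    omega
  obtain ⟨M, hM⟩ : ∃ M : ℝ, M = (P.parts.card : ℝ) := ⟨_, rfl⟩
  have hMpos : 0 < M := by rw [hM]; exact_mod_cast hM0
  have hnpos : (0 : ℝ) < n := by exact_mod_cast hn
  have hMn' : M ≤ n := by rw [hM]; exact_mod_cast hMn
  have hU : ∀ U ∈ P.parts, ((U \ T).card : ℝ) / (U.card : ℝ) ≤
      1 - ((U ∩ T).card : ℝ) * (M / (2 * n)) := by
    intro U hUP
    have h2 : 0 < U.card := card_pos.2 (P.nonempty_of_mem_parts hUP)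
    have h2' : (0 : ℝ) < U.card := by exact_mod_cast h2
    have h3 : ((U \ T).card : ℝ) + ((U ∩ T).card : ℝ) = U.card := by
      have h4 := Finset.card_sdiff_add_card_inter U T
      exact_mod_cast h4
    have h4 : (U.card : ℝ) ≤ 2 * n / M := by
      have h5 := hP.card_part_le_average_add_one hUP
      rw [card_univ, Fintype.card_fin] at h5
      have h6 : ((n / P.parts.card : ℕ) : ℝ) ≤ n / M := by
        rw [hM]; exact Nat.cast_div_le
      have h7 : (U.card : ℝ) ≤ ((n / P.parts.card : ℕ) : ℝ) + 1 := by exact_mod_cast h5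
      have h8 : 1 ≤ n / M := by rw [le_div_iff₀ hMpos]; linarith
      calc (U.card : ℝ) ≤ n / M + n / M := by linarith
        _ = 2 * n / M := by ring
    rw [div_le_iff₀ h2']
    have h5 : (U.card : ℝ) * (M / (2 * n)) ≤ 1 := by
      have h6 : (U.card : ℝ) * (M / (2 * n)) ≤ 2 * n / M * (M / (2 * n)) :=
        mul_le_mul_of_nonneg_right h4 (by positivity)
      refine h6.trans (le_of_eq ?_)
      field_simp
    have h7 : (0 : ℝ) ≤ ((U ∩ T).card : ℝ) := Nat.cast_nonneg _
    have h8 : ((U ∩ T).card : ℝ) * ((U.card : ℝ) * (M / (2 * n))) ≤ ((U ∩ T).card : ℝ) * 1 :=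
      mul_le_mul_of_nonneg_left h5 h7
    nlinarith
  have hsum : ∑ U ∈ P.parts, ((U ∩ T).card : ℝ) = (T.card : ℝ) := by
    have h2 : T = P.parts.biUnion fun U => U ∩ T := by
      ext x
      simp only [mem_biUnion, mem_inter]
      constructor
      · intro hx
        obtain ⟨U, hU1, hU2⟩ := P.exists_mem (mem_univ x)
        exact ⟨U, hU1, hU2, hx⟩
      · rintro ⟨U, -, -, hx⟩
        exact hx
    have h3 : T.card = ∑ U ∈ P.parts, (U ∩ T).card := by
      conv_lhs => rw [h2]
      refine card_biUnion fun U hU1 V hV1 hne => ?_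
      exact Finset.disjoint_of_subset_left inter_subset_left
        (Finset.disjoint_of_subset_right inter_subset_left (P.disjoint hU1 hV1 hne))
    rw [h3]
    push_cast
    rfl
  refine (Finset.sum_le_sum hU).trans ?_
  rw [Finset.sum_sub_distrib, ← Finset.sum_mul, hsum, Finset.sum_const, nsmul_eq_mul, mul_one,
    ← hM]
  have h2 : e * n * (M / (2 * n)) ≤ (T.card : ℝ) * (M / (2 * n)) :=
    mul_le_mul_of_nonneg_right he (by positivity)
  have h3 : e * n * (M / (2 * n)) = e / 2 * M := by
    field_simp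
  rw [h3] at h2
  linarith

end GCP
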