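import Mathlib

/-!
# GCP-Bad: few tuples contain a bad pair (Mathlib only)

PLAN. The set is contained in the union over the pairs `i < j` (at most `m ^ 2` pairs, `univ : Finset (Fin m × Fin m)` filtered) of
`{τ ∈ piFinset (fun _ => s) | (τ i, τ j) ∈ B}`. For fixed `i ≠ j` its cardinality is `(B ∩ s ×ˢ s).card * s.card ^ (m - 2)`; only `≤` is needed: the map
`τ ↦ ((τ i, τ j), restriction of τ to the other coordinates)` is injective into `(B.filter (· ∈ s ×ˢ s)) × ({l // l ≠ i ∧ l ≠ j} → s)`, the number of the other coordinates is `m - 2`.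
Then `(B ∩ ..).card * s.card ^ (m - 2) ≤ b * s.card ^ 2 * s.card ^ (m - 2) = b * s.card ^ m` (`2 ≤ m` because `i < j` exist). Sum over at most `m ^ 2` pairs. (`b ≥ 0` follows from `hB` if
`s` is nonempty; if `s` is empty and `m > 0` there are no tuples at all: the left side is `0`, the right side is `m ^ 2 * b * 0 ^ m = 0`.; for `m = 0` both sides are `0`.)
-/

set_option autoImplicit false

open Finset

namespace GCP

open Classical in
private theorem fiber_card {α : Type*} (s : Finset α) {m : ℕ} (i j : Fin m) (hij : i ≠ j) (x y : α) :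
    ((Fintype.piFinset (fun _ : Fin m => s)).filter (fun τ => (τ i, τ j) = (x, y))).card ≤
      s.card ^ (m - 2) := by
  have hsub : (Fintype.piFinset (fun _ : Fin m => s)).filter (fun τ => (τ i, τ j) = (x, y)) ⊆
      Fintype.piFinset (fun l : Fin m => if l = i then {x} else if l = j then {y} else s) := by
    intro τ hτ
    rw [mem_filter, Fintype.mem_piFinset] at hτ
    obtain ⟨h1, h2⟩ := hτ
    rw [Prod.mk.injEq] at h2
    rw [Fintype.mem_piFinset]
    intro l
    split_ifs with h3 h4
    · rw [h3, mem_singleton]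
      exact h2.1
    · rw [h4, mem_singleton]
      exact h2.2
    · exact h1 l
  refine (card_le_card hsub).trans ?_
  rw [Fintype.card_piFinset]
  have h1 : ∀ l : Fin m, (if l = i then ({x} : Finset α) else if l = j then {y} else s).card =
      if l ∈ ({i, j} : Finset (Fin m)) then 1 else s.card := by
    intro l
    by_cases h3 : l = i
    · have hmem : l ∈ ({i, j} : Finset (Fin m)) := by
        rw [mem_insert]
        exact Or.inl h3
      rw [if_pos h3, if_pos hmem, card_singleton]
    · rw [if_neg h3]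
      by_cases h4 : l = j
      · have hmem : l ∈ ({i, j} : Finset (Fin m)) := by
          rw [mem_insert, mem_singleton]
          exact Or.inr h4
        rw [if_pos h4, if_pos hmem, card_singleton]
      · have hmem : l ∉ ({i, j} : Finset (Fin m)) := by
          rw [mem_insert, mem_singleton]
          rintro (h | h)
          · exact h3 h
          · exact h4 h
        rw [if_neg h4, if_neg hmem]
  rw [prod_congr rfl fun l _ => h1 l, prod_ite, prod_const_one, one_mul, prod_const]
  have h2 : (univ.filter (fun l : Fin m => l ∉ ({i, j} : Finset (Fin m)))) =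
      ({i, j} : Finset (Fin m))ᶜ := by
    ext l
    simp
  rw [h2, card_compl, card_pair hij, Fintype.card_fin]

open Classical in
private theorem one_pair {α : Type*} (s : Finset α) (B : α → α → Prop) (m : ℕ) (b : ℝ)
    (hB : (((s ×ˢ s).filter (fun q => B q.1 q.2)).card : ℝ) ≤ b * s.card ^ 2)
    (i j : Fin m) (hij : i ≠ j) :
    (((Fintype.piFinset (fun _ : Fin m => s)).filter (fun τ => B (τ i) (τ j))).card : ℝ) ≤
      b * s.card ^ m := by
  have hm : 2 ≤ m := by
    have h1 := i.2
    have h2 := j.2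
    have h3 : (i : ℕ) ≠ j := fun h => hij (Fin.ext h)
    omega
  have h1 : ((Fintype.piFinset (fun _ : Fin m => s)).filter (fun τ => B (τ i) (τ j))).card ≤
      ((s ×ˢ s).filter (fun q => B q.1 q.2)).card * s.card ^ (m - 2) := by
    have hmap : ∀ τ ∈ (Fintype.piFinset (fun _ : Fin m => s)).filter (fun τ => B (τ i) (τ j)),
        (τ i, τ j) ∈ (s ×ˢ s).filter (fun q => B q.1 q.2) := by
      intro τ hτ
      rw [mem_filter, Fintype.mem_piFinset] at hτ
      rw [mem_filter, mem_product]
      exact ⟨⟨hτ.1 i, hτ.1 j⟩, hτ.2⟩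
    rw [card_eq_sum_card_fiberwise (f := fun τ : Fin m → α => (τ i, τ j))
      (t := (s ×ˢ s).filter (fun q => B q.1 q.2)) hmap, ← smul_eq_mul]
    refine sum_le_card_nsmul _ _ _ fun q _ => ?_
    obtain ⟨x, y⟩ := q
    refine le_trans (card_le_card ?_) (fiber_card s i j hij x y)
    intro τ hτ
    rw [mem_filter, mem_filter] at hτ
    rw [mem_filter]
    exact ⟨hτ.1.1, hτ.2⟩
  have h2 : (((Fintype.piFinset (fun _ : Fin m => s)).filter (fun τ => B (τ i) (τ j))).card : ℝ) ≤
      (((s ×ˢ s).filter (fun q => B q.1 q.2)).card : ℝ) * (s.card : ℝ) ^ (m - 2) := by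
    exact_mod_cast h1
  refine h2.trans ?_
  calc (((s ×ˢ s).filter (fun q => B q.1 q.2)).card : ℝ) * (s.card : ℝ) ^ (m - 2) ≤
      (b * s.card ^ 2) * (s.card : ℝ) ^ (m - 2) :=
        mul_le_mul_of_nonneg_right hB (by positivity)
    _ = b * (s.card : ℝ) ^ m := by
        rw [mul_assoc, ← pow_add]
        congr 2
        omega

open Classical in
theorem bad {α : Type*} (s : Finset α) (B : α → α → Prop) (m : ℕ) (b : ℝ)
    (hB : (((s ×ˢ s).filter (fun q => B q.1 q.2)).card : ℝ) ≤ b * s.card ^ 2) :
    (((Fintype.piFinset (fun _ : Fin m => s)).filter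
      (fun τ => ∃ i j, i < j ∧ B (τ i) (τ j))).card : ℝ) ≤ m ^ 2 * b * s.card ^ m := by
  rcases Nat.eq_zero_or_pos m with hm | hm
  · subst hm
    have h1 : (Fintype.piFinset (fun _ : Fin 0 => s)).filter
      (fun τ => ∃ i j, i < j ∧ B (τ i) (τ j)) = ∅ := by
      rw [filter_eq_empty_iff]
      rintro τ _ ⟨i, _⟩
      exact i.elim0
    rw [h1]
    simp
  rcases Nat.eq_zero_or_pos s.card with hs | hs
  · have h1 : (Fintype.piFinset (fun _ : Fin m => s)).card = 0 := by
      rw [Fintype.card_piFinset, prod_const, hs, card_univ, Fintype.card_fin, zero_pow hm.ne']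
    have h2 : ((Fintype.piFinset (fun _ : Fin m => s)).filter
      (fun τ => ∃ i j, i < j ∧ B (τ i) (τ j))).card = 0 :=
      Nat.le_zero.1 ((card_filter_le _ _).trans h1.le)
    rw [h2, hs]
    simp [hm.ne']
  have hsR : (0 : ℝ) < s.card := by exact_mod_cast hs
  have hb : 0 ≤ b := by
    by_contra hneg
    push Not at hneg
    have h1 : b * (s.card : ℝ) ^ 2 < 0 := mul_neg_of_neg_of_pos hneg (by positivity)
    have h2 : (0 : ℝ) ≤ (((s ×ˢ s).filter (fun q => B q.1 q.2)).card : ℝ) := Nat.cast_nonneg _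
    linarith
  have hsub : (Fintype.piFinset (fun _ : Fin m => s)).filter
      (fun τ => ∃ i j, i < j ∧ B (τ i) (τ j)) ⊆
      (univ.filter (fun q : Fin m × Fin m => q.1 < q.2)).biUnion (fun q =>
        (Fintype.piFinset (fun _ : Fin m => s)).filter (fun τ => B (τ q.1) (τ q.2))) := by
    intro τ hτ
    rw [mem_filter] at hτ
    obtain ⟨h1, i, j, hij, h2⟩ := hτ
    rw [mem_biUnion]
    exact ⟨(i, j), mem_filter.2 ⟨mem_univ _, hij⟩, mem_filter.2 ⟨h1, h2⟩⟩
  have h1 : (((Fintype.piFinset (fun _ : Fin m => s)).filter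
      (fun τ => ∃ i j, i < j ∧ B (τ i) (τ j))).card : ℝ) ≤
      ∑ q ∈ univ.filter (fun q : Fin m × Fin m => q.1 < q.2),
        (((Fintype.piFinset (fun _ : Fin m => s)).filter (fun τ => B (τ q.1) (τ q.2))).card : ℝ) := by
    exact_mod_cast (card_le_card hsub).trans card_biUnion_le
  refine h1.trans ?_
  have h2 : ∑ q ∈ univ.filter (fun q : Fin m × Fin m => q.1 < q.2),
        (((Fintype.piFinset (fun _ : Fin m => s)).filter (fun τ => B (τ q.1) (τ q.2))).card : ℝ) ≤
      (univ.filter (fun q : Fin m × Fin m => q.1 < q.2)).card • (b * (s.card : ℝ) ^ m) := by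
    refine sum_le_card_nsmul _ _ _ fun q hq => ?_
    rw [mem_filter] at hq
    exact one_pair s B m b hB q.1 q.2 hq.2.ne
  refine h2.trans ?_
  rw [nsmul_eq_mul]
  have h3 : (univ.filter (fun q : Fin m × Fin m => q.1 < q.2)).card ≤ m ^ 2 := by
    refine (card_le_univ _).trans (le_of_eq ?_)
    rw [Fintype.card_prod, Fintype.card_fin, sq]
  have h4 : ((univ.filter (fun q : Fin m × Fin m => q.1 < q.2)).card : ℝ) ≤ (m : ℝ) ^ 2 := by
    exact_mod_cast h3
  calc _ ≤ (m : ℝ) ^ 2 * (b * (s.card : ℝ) ^ m) :=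
        mul_le_mul_of_nonneg_right h4 (by positivity)
    _ = _ := by ring

end GCP
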