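import Pool.Agent.GCP.Gen

/-!
# GCP-Cert: a family of cliques with Hall's condition gives a positive semidefinite matrix

PLAN. `stressFree`: let `N` be symmetric, supported on the edges of `Ω` and the pair `{u0, v0}`, with `∑ v, N u v • X v = 0` for all `u`.
Suppose the set `S = univ.filter (fun u => ∃ v, N u v ≠ 0)` is nonempty (otherwise done). Take `v ∈ S` from `hp`. If `N v w ≠ 0` then `N w v ≠ 0`, so
`w ∈ S`, and `Ω.Adj v w` or `w = u0` or `w = v0` (the latter with `v = v0` resp. `v = u0`): with `u := if v = u0 then v0 else u0` the support of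
`N v` is contained in `insert u (nb Ω S v)`, a set with Hall's condition, so `N v = 0` by `hX`: contradiction to `v ∈ S`.
(If `v = u0` and `v = v0`, then `u0 = v0`, `u = v0 = v`, fine: `w = u0` or `w = v0` means `w = v = u`.)
`cert`: `X` from `gen Q`; `OR Ω univ X`: if `Ω.Adj u v` then no `Q j` contains both (`hQ`), so the inner product
`∑ j, X u j * X v j` is zero term by term (`EuclideanSpace.inner_eq_star_dotProduct` or `PiLp.inner_apply`). Then
`GCA.faithful_of_stressFree` gives `Y`, and `MrGC.pr_of_rep` with `finrank_euclideanSpace_fin`.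
-/

set_option autoImplicit false

open Finset
open scoped RealInnerProductSpace

namespace GCP

theorem stressFree {n d : ℕ} (Ω : SimpleGraph (Fin n)) (Q : Fin d → Finset (Fin n))
    (X : Fin n → EuclideanSpace ℝ (Fin d))
    (hX : ∀ T, Hall Q T → ∀ c : Fin n → ℝ, (∀ v, c v ≠ 0 → v ∈ T) → ∑ v, c v • X v = 0 →
      ∀ v, c v = 0)
    (hp : ∀ S : Finset (Fin n), S.Nonempty → ∃ v ∈ S, ∀ u, Hall Q (insert u (MrGC.nb Ω S v)))
    (u0 v0 : Fin n) : GCA.StressFree Ω X u0 v0 := by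
  classical
  intro N hsym hN hsum
  by_contra hcon
  push Not at hcon
  obtain ⟨a, b, hab⟩ := hcon
  obtain ⟨v, hvS, hH⟩ := hp (univ.filter (fun u => ∃ w, N u w ≠ 0))
    ⟨a, mem_filter.2 ⟨mem_univ _, b, hab⟩⟩
  obtain ⟨-, w0, hw0⟩ := mem_filter.1 hvS
  refine hw0 (hX _ (hH (if v = u0 then v0 else u0)) (N v) ?_ (hsum v) w0)
  intro w hw
  have hwS : w ∈ univ.filter (fun u => ∃ w, N u w ≠ 0) :=
    mem_filter.2 ⟨mem_univ _, v, by rwa [hsym w v]⟩
  rw [mem_insert]
  rcases hN v w hw with h | ⟨h1, h2⟩ | ⟨h1, h2⟩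
  · exact Or.inr (MrGC.mem_nb.2 ⟨hwS, h⟩)
  · left
    rw [if_pos h1, h2]
  · left
    by_cases h3 : v = u0
    · rw [if_pos h3, h2, ← h3, h1]
    · rw [if_neg h3, h2]

theorem cert {n d : ℕ} (Ω : SimpleGraph (Fin n)) (Q : Fin d → Finset (Fin n))
    (hQ : ∀ j, ∀ u ∈ Q j, ∀ v ∈ Q j, ¬ Ω.Adj u v)
    (hp : ∀ S : Finset (Fin n), S.Nonempty → ∃ v ∈ S, ∀ u, Hall Q (insert u (MrGC.nb Ω S v))) :
    MrGC.PR Ω d := by
  obtain ⟨X, hX0, hX⟩ := gen Q
  have hOR : MrGC.OR Ω univ X := by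
    intro u _ v _ huv
    rw [PiLp.inner_apply]
    refine Finset.sum_eq_zero fun j _ => ?_
    by_cases hu : u ∈ Q j
    · have hv : v ∉ Q j := fun hv => hQ j u hu v hv huv
      rw [hX0 v j hv, inner_zero_right]
    · rw [hX0 u j hu, inner_zero_left]
  obtain ⟨Y, hY1, hY2⟩ := GCA.faithful_of_stressFree Ω X hOR
    (fun u0 v0 _ _ _ => stressFree Ω Q X hX hp u0 v0)
  have h := MrGC.pr_of_rep hY1 hY2
  rwa [finrank_euclideanSpace_fin] at h

end GCP
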