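import Pool.Agent.GCP.Defs

/-!
# GCP-Count: counting lemma for transversal cliques
-/

set_option autoImplicit false

open Finset

namespace GCP

private theorem cnt_avg {n m : ℕ} (A : Fin m → Finset (Fin n)) (i : Fin m)
    (f : (Fin m → Fin n) → ℝ) :
    ((A i).card : ℝ) * ∑ v ∈ Fintype.piFinset A, f v =
      ∑ v ∈ Fintype.piFinset A, ∑ x ∈ A i, f (Function.update v i x) := by
  classical
  have h1 : ∑ v ∈ Fintype.piFinset A, ∑ x ∈ A i, f (Function.update v i x) =
      ∑ q ∈ Fintype.piFinset A ×ˢ A i, f (Function.update q.1 i q.2) := by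
    rw [sum_product]
  have h2 : ((A i).card : ℝ) * ∑ v ∈ Fintype.piFinset A, f v =
      ∑ q ∈ Fintype.piFinset A ×ˢ A i, f q.1 := by
    rw [sum_product, mul_sum]
    refine sum_congr rfl fun v _ => ?_
    change _ = ∑ y ∈ A i, f v
    rw [sum_const, nsmul_eq_mul]
  have hmem : ∀ q ∈ Fintype.piFinset A ×ˢ A i,
      ((Function.update q.1 i q.2, q.1 i) : (Fin m → Fin n) × Fin n) ∈
        Fintype.piFinset A ×ˢ A i := by
    rintro ⟨v, x⟩ hq
    rw [mem_product, Fintype.mem_piFinset] at hq ⊢
    refine ⟨fun k => ?_, hq.1 i⟩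
    by_cases hk : k = i
    · subst hk
      simpa using hq.2
    · simp only [Function.update_of_ne hk]
      exact hq.1 k
  have hinv : ∀ q ∈ Fintype.piFinset A ×ˢ A i,
      ((Function.update ((Function.update q.1 i q.2, q.1 i) : (Fin m → Fin n) × Fin n).1 i
        ((Function.update q.1 i q.2, q.1 i) : (Fin m → Fin n) × Fin n).2,
        ((Function.update q.1 i q.2, q.1 i) : (Fin m → Fin n) × Fin n).1 i) :
        (Fin m → Fin n) × Fin n) = q := by
    rintro ⟨v, x⟩ _
    simp
  rw [h1, h2]
  symm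
  refine sum_nbij' (fun q => (Function.update q.1 i q.2, q.1 i))
    (fun q => (Function.update q.1 i q.2, q.1 i)) hmem hmem hinv hinv ?_
  rintro ⟨v, x⟩ _
  rfl

open Classical in
private noncomputable def cntf {n m : ℕ} (G : SimpleGraph (Fin n)) (E : Finset (Fin m × Fin m))
    (i j : Fin m) (d : ℝ) (v : Fin m → Fin n) : ℝ :=
  if ∀ p ∈ E, G.Adj (v p.1) (v p.2) then (if G.Adj (v i) (v j) then (1 : ℝ) else 0) - d else 0

private theorem cnt_inner {n m : ℕ} (G : SimpleGraph (Fin n)) (P A : Fin m → Finset (Fin n))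
    (hA : ∀ i, A i ⊆ P i) (ε : ℝ) (hε : 0 ≤ ε) (d : ℝ) (i j : Fin m) (hij : i < j)
    (hcut : Cut G (P i) (P j) ε d) (E : Finset (Fin m × Fin m)) (hE : ∀ p ∈ E, p.1 < p.2)
    (he : (i, j) ∉ E) (v : Fin m → Fin n) :
    |∑ x ∈ A i, ∑ y ∈ A j, cntf G E i j d (Function.update (Function.update v i x) j y)| ≤
      ε * ((P i).card * (P j).card) := by
  classical
  have hne : i ≠ j := hij.ne
  have hui : ∀ x y, Function.update (Function.update v i x) j y i = x := by
    intro x y
    rw [Function.update_of_ne hne, Function.update_self]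
  have huj : ∀ x y, Function.update (Function.update v i x) j y j = y := by
    intro x y
    rw [Function.update_self]
  have huni : ∀ x y k, k ≠ i →
      Function.update (Function.update v i x) j y k = Function.update v j y k := by
    intro x y k hk
    by_cases hkj : k = j
    · subst hkj
      rw [Function.update_self, Function.update_self]
    · rw [Function.update_of_ne hkj, Function.update_of_ne hkj, Function.update_of_ne hk]
  have hunj : ∀ x y k, k ≠ j →
      Function.update (Function.update v i x) j y k = Function.update v i x k := by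
    intro x y k hk
    rw [Function.update_of_ne hk]
  by_cases hc : ∀ p ∈ E, p.1 ≠ i → p.2 ≠ i → p.1 ≠ j → p.2 ≠ j → G.Adj (v p.1) (v p.2)
  · set X : Finset (Fin n) := (A i).filter (fun x => ∀ p ∈ E, (p.1 = i ∨ p.2 = i) →
      G.Adj (Function.update v i x p.1) (Function.update v i x p.2)) with hX
    set Y : Finset (Fin n) := (A j).filter (fun y => ∀ p ∈ E, (p.1 = j ∨ p.2 = j) →
      G.Adj (Function.update v j y p.1) (Function.update v j y p.2)) with hY
    have key : ∀ x ∈ A i, ∀ y ∈ A j,
        ((∀ p ∈ E, G.Adj (Function.update (Function.update v i x) j y p.1)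
          (Function.update (Function.update v i x) j y p.2)) ↔ (x ∈ X ∧ y ∈ Y)) := by
      intro x hx y hy
      have hboth : ∀ p ∈ E, (p.1 = i ∨ p.2 = i) → (p.1 = j ∨ p.2 = j) → False := by
        intro p hp h1 h2
        have hlt := hE p hp
        rcases h1 with h1 | h1 <;> rcases h2 with h2 | h2
        · exact hne (h1.symm.trans h2)
        · apply he
          have : p = (i, j) := Prod.ext h1 h2
          rw [← this]
          exact hp
        · rw [h1, h2] at hlt
          exact absurd (hlt.trans hij) (lt_irrefl _)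
        · exact hne (h1.symm.trans h2)
      constructor
      · intro h
        refine ⟨mem_filter.2 ⟨hx, ?_⟩, mem_filter.2 ⟨hy, ?_⟩⟩
        · intro p hp h1
          have h2 : p.1 ≠ j := fun h3 => hboth p hp h1 (Or.inl h3)
          have h3 : p.2 ≠ j := fun h4 => hboth p hp h1 (Or.inr h4)
          have h4 := h p hp
          rw [hunj x y _ h2, hunj x y _ h3] at h4
          exact h4
        · intro p hp h1
          have h2 : p.1 ≠ i := fun h3 => hboth p hp (Or.inl h3) h1
          have h3 : p.2 ≠ i := fun h4 => hboth p hp (Or.inr h4) h1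
          have h4 := h p hp
          rw [huni x y _ h2, huni x y _ h3] at h4
          exact h4
      · rintro ⟨h1, h2⟩ p hp
        have hx' := (mem_filter.1 h1).2
        have hy' := (mem_filter.1 h2).2
        by_cases h3 : p.1 = i ∨ p.2 = i
        · have h4 : p.1 ≠ j := fun h5 => hboth p hp h3 (Or.inl h5)
          have h5 : p.2 ≠ j := fun h6 => hboth p hp h3 (Or.inr h6)
          rw [hunj x y _ h4, hunj x y _ h5]
          exact hx' p hp h3
        · push Not at h3
          rw [huni x y _ h3.1, huni x y _ h3.2]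
          by_cases h4 : p.1 = j ∨ p.2 = j
          · exact hy' p hp h4
          · push Not at h4
            rw [Function.update_of_ne h4.1, Function.update_of_ne h4.2]
            exact hc p hp h3.1 h3.2 h4.1 h4.2
    have hsum : ∑ x ∈ A i, ∑ y ∈ A j,
        cntf G E i j d (Function.update (Function.update v i x) j y) =
        (edg G X Y : ℝ) - d * (X.card * Y.card) := by
      have h1 : ∑ x ∈ A i, ∑ y ∈ A j,
          cntf G E i j d (Function.update (Function.update v i x) j y) =
          ∑ x ∈ A i, ∑ y ∈ A j, (if x ∈ X ∧ y ∈ Y then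
            (if G.Adj x y then (1 : ℝ) else 0) - d else 0) := by
        refine sum_congr rfl fun x hx => sum_congr rfl fun y hy => ?_
        unfold cntf
        rw [hui, huj]
        exact if_congr (key x hx y hy) rfl rfl
      rw [h1, ← sum_product', ← sum_filter]
      have h2 : (A i ×ˢ A j).filter (fun q => q.1 ∈ X ∧ q.2 ∈ Y) = X ×ˢ Y := by
        ext ⟨x, y⟩
        rw [mem_filter, mem_product, mem_product]
        constructor
        · rintro ⟨_, h⟩
          exact h
        · intro h
          exact ⟨⟨(mem_filter.1 h.1).1, (mem_filter.1 h.2).1⟩, h⟩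
      rw [h2, sum_sub_distrib, sum_const, card_product, nsmul_eq_mul, sum_boole]
      unfold edg
      push_cast
      ring
    rw [hsum]
    exact hcut X ((filter_subset _ _).trans (hA i)) Y ((filter_subset _ _).trans (hA j))
  · push Not at hc
    obtain ⟨p, hp, h1, h2, h3, h4, h5⟩ := hc
    have hz : ∑ x ∈ A i, ∑ y ∈ A j,
        cntf G E i j d (Function.update (Function.update v i x) j y) = 0 := by
      refine sum_eq_zero fun x _ => sum_eq_zero fun y _ => ?_
      unfold cntf
      rw [if_neg]
      intro h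
      have h6 := h p hp
      rw [hunj x y _ h3, hunj x y _ h4, Function.update_of_ne h1, Function.update_of_ne h2] at h6
      exact h5 h6
    rw [hz, abs_zero]
    positivity

private theorem cnt_step {n m : ℕ} (G : SimpleGraph (Fin n)) (P A : Fin m → Finset (Fin n))
    (hA : ∀ i, A i ⊆ P i) (ε : ℝ) (hε : 0 ≤ ε) (d : ℝ) (i j : Fin m) (hij : i < j)
    (hcut : Cut G (P i) (P j) ε d) (E : Finset (Fin m × Fin m)) (hE : ∀ p ∈ E, p.1 < p.2)
    (he : (i, j) ∉ E) :
    |∑ v ∈ Fintype.piFinset A, cntf G E i j d v| ≤ ε * ∏ l, ((P l).card : ℝ) := by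
  classical
  have hne : i ≠ j := hij.ne
  by_cases hAi : (A i).card = 0
  · have hemp : Fintype.piFinset A = ∅ := by
      rw [eq_empty_iff_forall_notMem]
      intro v hv
      have := (Fintype.mem_piFinset.1 hv) i
      rw [card_eq_zero.1 hAi] at this
      exact absurd this (notMem_empty _)
    rw [hemp, sum_empty, abs_zero]
    exact mul_nonneg hε (prod_nonneg fun l _ => Nat.cast_nonneg _)
  by_cases hAj : (A j).card = 0
  · have hemp : Fintype.piFinset A = ∅ := by
      rw [eq_empty_iff_forall_notMem]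
      intro v hv
      have := (Fintype.mem_piFinset.1 hv) j
      rw [card_eq_zero.1 hAj] at this
      exact absurd this (notMem_empty _)
    rw [hemp, sum_empty, abs_zero]
    exact mul_nonneg hε (prod_nonneg fun l _ => Nat.cast_nonneg _)
  have hai : (0 : ℝ) < (A i).card := by exact_mod_cast Nat.pos_of_ne_zero hAi
  have haj : (0 : ℝ) < (A j).card := by exact_mod_cast Nat.pos_of_ne_zero hAj
  have hid : ((A i).card : ℝ) * (((A j).card : ℝ) * ∑ v ∈ Fintype.piFinset A, cntf G E i j d v) =
      ∑ v ∈ Fintype.piFinset A, ∑ x ∈ A i, ∑ y ∈ A j,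
        cntf G E i j d (Function.update (Function.update v i x) j y) := by
    rw [cnt_avg A j, cnt_avg A i]
  have hb : |∑ v ∈ Fintype.piFinset A, ∑ x ∈ A i, ∑ y ∈ A j,
        cntf G E i j d (Function.update (Function.update v i x) j y)| ≤
      (∏ l, ((A l).card : ℝ)) * (ε * ((P i).card * (P j).card)) := by
    refine (abs_sum_le_sum_abs _ _).trans ?_
    refine (sum_le_card_nsmul _ _ _ (fun v _ =>
      cnt_inner G P A hA ε hε d i j hij hcut E hE he v)).trans ?_
    rw [nsmul_eq_mul, Fintype.card_piFinset]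
    push_cast
    exact le_rfl
  have hji : j ∈ (univ : Finset (Fin m)).erase i := mem_erase.2 ⟨hne.symm, mem_univ _⟩
  have hpA : ∏ l, ((A l).card : ℝ) = (A i).card * ((A j).card *
      ∏ l ∈ ((univ : Finset (Fin m)).erase i).erase j, ((A l).card : ℝ)) := by
    rw [← mul_prod_erase univ (fun l => ((A l).card : ℝ)) (mem_univ i),
      ← mul_prod_erase (univ.erase i) (fun l => ((A l).card : ℝ)) hji]
  have hpP : ∏ l, ((P l).card : ℝ) = (P i).card * ((P j).card *
      ∏ l ∈ ((univ : Finset (Fin m)).erase i).erase j, ((P l).card : ℝ)) := by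
    rw [← mul_prod_erase univ (fun l => ((P l).card : ℝ)) (mem_univ i),
      ← mul_prod_erase (univ.erase i) (fun l => ((P l).card : ℝ)) hji]
  have hRR : ∏ l ∈ ((univ : Finset (Fin m)).erase i).erase j, ((A l).card : ℝ) ≤
      ∏ l ∈ ((univ : Finset (Fin m)).erase i).erase j, ((P l).card : ℝ) :=
    prod_le_prod (fun l _ => Nat.cast_nonneg _)
      (fun l _ => by exact_mod_cast card_le_card (hA l))
  have hRA0 : 0 ≤ ∏ l ∈ ((univ : Finset (Fin m)).erase i).erase j, ((A l).card : ℝ) :=
    prod_nonneg fun l _ => Nat.cast_nonneg _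
  rw [← hid, abs_mul, abs_mul, abs_of_pos hai, abs_of_pos haj, hpA] at hb
  set RA := ∏ l ∈ ((univ : Finset (Fin m)).erase i).erase j, ((A l).card : ℝ) with hRA
  set RP := ∏ l ∈ ((univ : Finset (Fin m)).erase i).erase j, ((P l).card : ℝ) with hRP
  have hb2 : ((A i).card : ℝ) * ((A j).card * |∑ v ∈ Fintype.piFinset A, cntf G E i j d v|) ≤
      (A i).card * ((A j).card * (RA * (ε * ((P i).card * (P j).card)))) := by
    calc _ ≤ _ := hb
      _ = _ := by ring
  have hb3 := le_of_mul_le_mul_left (le_of_mul_le_mul_left hb2 hai) haj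
  refine hb3.trans ?_
  rw [hpP]
  have hPP : 0 ≤ ε * (((P i).card : ℝ) * (P j).card) := by positivity
  calc RA * (ε * ((P i).card * (P j).card)) ≤ RP * (ε * ((P i).card * (P j).card)) :=
        mul_le_mul_of_nonneg_right hRR hPP
    _ = ε * ((P i).card * ((P j).card * RP)) := by ring

open Classical in
private theorem cnt_main {n m : ℕ} (G : SimpleGraph (Fin n)) (P A : Fin m → Finset (Fin n))
    (hA : ∀ i, A i ⊆ P i) (ε : ℝ) (hε : 0 ≤ ε) (d : Fin m → Fin m → ℝ)
    (hd0 : ∀ i j, i < j → 0 ≤ d i j) (hd1 : ∀ i j, i < j → d i j ≤ 1)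
    (hcut : ∀ i j, i < j → Cut G (P i) (P j) ε (d i j)) (E : Finset (Fin m × Fin m)) :
    (∀ p ∈ E, p.1 < p.2) →
    |(((Fintype.piFinset A).filter (fun v => ∀ p ∈ E, G.Adj (v p.1) (v p.2))).card : ℝ) -
      (∏ p ∈ E, d p.1 p.2) * ∏ i, ((A i).card : ℝ)| ≤
      E.card * (ε * ∏ i, ((P i).card : ℝ)) := by
  induction E using Finset.induction_on with
  | empty =>
    intro _
    simp [Fintype.card_piFinset]
  | insert e E heE ih =>
    intro hE
    obtain ⟨i, j⟩ := e
    have hij : i < j := hE (i, j) (mem_insert_self _ _)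
    have hE' : ∀ p ∈ E, p.1 < p.2 := fun p hp => hE p (mem_insert_of_mem hp)
    have ih' := ih hE'
    have hst := cnt_step G P A hA ε hε (d i j) i j hij (hcut i j hij) E hE' heE
    have hsum : ∑ v ∈ Fintype.piFinset A, cntf G E i j (d i j) v =
        (((Fintype.piFinset A).filter
          (fun v => ∀ p ∈ insert (i, j) E, G.Adj (v p.1) (v p.2))).card : ℝ) -
        d i j * (((Fintype.piFinset A).filter
          (fun v => ∀ p ∈ E, G.Adj (v p.1) (v p.2))).card : ℝ) := by
      unfold cntf
      rw [← sum_filter, sum_sub_distrib, sum_const, nsmul_eq_mul, sum_boole, filter_filter,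
        mul_comm (d i j)]
      have h1 : (Fintype.piFinset A).filter
          (fun v => (∀ p ∈ E, G.Adj (v p.1) (v p.2)) ∧ G.Adj (v i) (v j)) =
          (Fintype.piFinset A).filter
          (fun v => ∀ p ∈ insert (i, j) E, G.Adj (v p.1) (v p.2)) := by
        refine filter_congr fun v _ => ?_
        rw [forall_mem_insert]
        exact and_comm
      rw [h1]
    rw [hsum] at hst
    rw [prod_insert heE, card_insert_of_notMem heE]
    push_cast
    have hd0' := hd0 i j hij
    have hd1' := hd1 i j hij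
    set F1 : ℝ := (((Fintype.piFinset A).filter
          (fun v => ∀ p ∈ insert (i, j) E, G.Adj (v p.1) (v p.2))).card : ℝ) with hF1
    set F0 : ℝ := (((Fintype.piFinset A).filter
          (fun v => ∀ p ∈ E, G.Adj (v p.1) (v p.2))).card : ℝ) with hF0
    have heq : F1 - d i j * (∏ p ∈ E, d p.1 p.2) * ∏ i, ((A i).card : ℝ) =
        (F1 - d i j * F0) + d i j * (F0 - (∏ p ∈ E, d p.1 p.2) * ∏ i, ((A i).card : ℝ)) := by
      ring
    rw [heq]
    have hK0 : 0 ≤ (E.card : ℝ) * (ε * ∏ i, ((P i).card : ℝ)) :=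
      mul_nonneg (Nat.cast_nonneg _) (mul_nonneg hε (prod_nonneg fun l _ => Nat.cast_nonneg _))
    have h2 : |d i j * (F0 - (∏ p ∈ E, d p.1 p.2) * ∏ i, ((A i).card : ℝ))| ≤
        (E.card : ℝ) * (ε * ∏ i, ((P i).card : ℝ)) := by
      rw [abs_mul, abs_of_nonneg hd0']
      calc _ ≤ 1 * ((E.card : ℝ) * (ε * ∏ i, ((P i).card : ℝ))) :=
            mul_le_mul hd1' ih' (abs_nonneg _) zero_le_one
        _ = _ := one_mul _
    calc _ ≤ |F1 - d i j * F0| + |d i j * (F0 - (∏ p ∈ E, d p.1 p.2) *
          ∏ i, ((A i).card : ℝ))| := abs_add_le _ _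
      _ ≤ ε * ∏ l, ((P l).card : ℝ) + (E.card : ℝ) * (ε * ∏ i, ((P i).card : ℝ)) :=
          add_le_add hst h2
      _ = ((E.card : ℝ) + 1) * (ε * ∏ i, ((P i).card : ℝ)) := by ring

theorem count {n m : ℕ} (G : SimpleGraph (Fin n)) (P A : Fin m → Finset (Fin n))
    (hA : ∀ i, A i ⊆ P i) (ε : ℝ) (hε : 0 ≤ ε) (d : Fin m → Fin m → ℝ)
    (hd0 : ∀ i j, i < j → 0 ≤ d i j) (hd1 : ∀ i j, i < j → d i j ≤ 1)
    (hcut : ∀ i j, i < j → Cut G (P i) (P j) ε (d i j)) :
    |((trans G A).card : ℝ) - (∏ p ∈ prs m, d p.1 p.2) * ∏ i, ((A i).card : ℝ)| ≤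
      m ^ 2 * ε * ∏ i, ((P i).card : ℝ) := by
  classical
  have h := cnt_main G P A hA ε hε d hd0 hd1 hcut (prs m)
    (fun p hp => (mem_filter.1 hp).2)
  have hT : trans G A = (Fintype.piFinset A).filter
      (fun v => ∀ p ∈ prs m, G.Adj (v p.1) (v p.2)) := by
    unfold trans
    refine filter_congr fun v _ => ?_
    constructor
    · intro h1 p hp
      exact h1 p.1 p.2 (mem_filter.1 hp).2
    · intro h1 i j hij
      exact h1 (i, j) (mem_filter.2 ⟨mem_univ _, hij⟩)
  rw [hT]
  refine h.trans ?_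
  have hc : ((prs m).card : ℝ) ≤ m ^ 2 := by
    have h1 : (prs m).card ≤ m * m := by
      unfold prs
      refine (card_filter_le _ _).trans ?_
      rw [card_univ, Fintype.card_prod, Fintype.card_fin]
    have h2 : ((prs m).card : ℝ) ≤ ((m * m : ℕ) : ℝ) := by exact_mod_cast h1
    push_cast at h2
    rw [sq]
    exact h2
  rw [mul_assoc]
  exact mul_le_mul_of_nonneg_right hc
    (mul_nonneg hε (prod_nonneg fun l _ => Nat.cast_nonneg _))

end GCP
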