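import Pool.Agent.GCA.IftD

/-!
# Project GCP (MP_2c4812_co): definitions

Graphs all of whose (linear size) pairs of sets have density bounded away from `0` and `1`; certificates for
positive semidefinite matrices of small rank given by cliques.
-/

set_option autoImplicit false

open Finset

namespace GCP

open Classical in
/-- the number of sets of the family `Q` which meet `T` -/
noncomputable def hit {n d : ℕ} (Q : Fin d → Finset (Fin n)) (T : Finset (Fin n)) : ℕ :=
  (univ.filter (fun j => ¬ Disjoint (Q j) T)).card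

/-- Hall's condition for the set `T` and the family `Q` -/
def Hall {n d : ℕ} (Q : Fin d → Finset (Fin n)) (T : Finset (Fin n)) : Prop :=
  ∀ T' ⊆ T, T'.card ≤ hit Q T'

/-- `Ω` is `D`-degenerate -/
def Degen {n : ℕ} (Ω : SimpleGraph (Fin n)) (D : ℕ) : Prop :=
  ∀ S : Finset (Fin n), S.Nonempty → ∃ v ∈ S, (MrGC.nb Ω S v).card ≤ D

open Classical in
/-- the number of pairs `(x, y) ∈ X × Y` with `x` adjacent to `y` -/
noncomputable def edg {n : ℕ} (G : SimpleGraph (Fin n)) (X Y : Finset (Fin n)) : ℕ :=
  ((X ×ˢ Y).filter (fun p => G.Adj p.1 p.2)).card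

open Classical in
/-- in every equipartition into at most `N` parts at most `τ M^2` of the ordered pairs of different parts (`M` parts)
have density less than `η` -/
def Dense {n : ℕ} (G : SimpleGraph (Fin n)) (τ η : ℝ) (N : ℕ) : Prop :=
  ∀ P : Finpartition (univ : Finset (Fin n)), P.IsEquipartition → P.parts.card ≤ N →
    (((P.parts ×ˢ P.parts).filter (fun q => q.1 ≠ q.2 ∧
      (edg G q.1 q.2 : ℝ) < η * (q.1.card * q.2.card))).card : ℝ) ≤ τ * P.parts.card ^ 2

/-- the pair `(P, P')` is regular with density `d` and error `ε` -/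
def Cut {n : ℕ} (G : SimpleGraph (Fin n)) (P P' : Finset (Fin n)) (ε d : ℝ) : Prop :=
  ∀ X ⊆ P, ∀ Y ⊆ P', |(edg G X Y : ℝ) - d * (X.card * Y.card)| ≤ ε * (P.card * P'.card)

open Classical in
/-- the transversal cliques of `A` -/
noncomputable def trans {n m : ℕ} (G : SimpleGraph (Fin n)) (A : Fin m → Finset (Fin n)) :
    Finset (Fin m → Fin n) :=
  (Fintype.piFinset A).filter (fun v => ∀ i j, i < j → G.Adj (v i) (v j))

/-- the pairs `i < j` -/
def prs (m : ℕ) : Finset (Fin m × Fin m) := univ.filter (fun p => p.1 < p.2)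

end GCP
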