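import Pool.Agent.GCP.Defs

/-!
# GCP-Deg: the degeneracies of a graph and its complement

For the least `D` with `Degen Ω D` there is a nonempty set `S` all of whose vertices have at least `D` neighbours
in `S`. Apply this to `G` and to its complement: if the two sets meet, the neighbourhoods of a common vertex are
disjoint and do not contain it; if they are disjoint, their sizes are at least `D + 1` and `D' + 1`.
-/

set_option autoImplicit false

open Finset

namespace GCP

private theorem mem_nb' {n : ℕ} {Ω : SimpleGraph (Fin n)} {S : Finset (Fin n)} {v u : Fin n}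
    (h : u ∈ MrGC.nb Ω S v) : u ∈ S ∧ Ω.Adj v u := by
  classical
  simpa [MrGC.nb] using h

/-- the least degeneracy with a witness -/
private theorem exists_min {n : ℕ} (hn : 0 < n) (Ω : SimpleGraph (Fin n)) :
    ∃ D : ℕ, Degen Ω D ∧ ∃ S : Finset (Fin n), S.Nonempty ∧
      ∀ v ∈ S, D ≤ (MrGC.nb Ω S v).card := by
  classical
  have hex : ∃ D, Degen Ω D := by
    refine ⟨n, fun S hS => ?_⟩
    obtain ⟨v, hv⟩ := hS
    exact ⟨v, hv, (card_le_univ _).trans (by simp)⟩
  obtain ⟨D, hD, hmin⟩ : ∃ D, Degen Ω D ∧ ∀ D' < D, ¬ Degen Ω D' :=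
    ⟨Nat.find hex, Nat.find_spec hex, fun _ h => Nat.find_min hex h⟩
  refine ⟨D, hD, ?_⟩
  rcases Nat.eq_zero_or_pos D with h0 | h0
  · refine ⟨univ, ⟨⟨0, hn⟩, mem_univ _⟩, fun v _ => ?_⟩
    rw [h0]
    exact Nat.zero_le _
  · have hm : ¬ Degen Ω (D - 1) := hmin (D - 1) (by omega)
    unfold Degen at hm
    push Not at hm
    obtain ⟨S, hS, h⟩ := hm
    refine ⟨S, hS, fun v hv => ?_⟩
    have := h v hv
    omega

theorem degen_sum {n : ℕ} (hn : 0 < n) (G : SimpleGraph (Fin n)) :
    ∃ D D' : ℕ, D + D' + 1 ≤ n ∧ Degen G D ∧ Degen Gᶜ D' := by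
  classical
  obtain ⟨D, hD, S, hS, h1⟩ := exists_min hn G
  obtain ⟨D', hD', S', hS', h2⟩ := exists_min hn Gᶜ
  refine ⟨D, D', ?_, hD, hD'⟩
  by_cases hdis : Disjoint S S'
  · obtain ⟨v, hv⟩ := hS
    obtain ⟨v', hv'⟩ := hS'
    have k1 : D + 1 ≤ S.card := by
      have hsub : insert v (MrGC.nb G S v) ⊆ S := by
        intro u hu
        rcases mem_insert.1 hu with rfl | hu
        · exact hv
        · exact (mem_nb' hu).1
      have hnot : v ∉ MrGC.nb G S v := fun hh => G.irrefl (mem_nb' hh).2
      have := card_le_card hsub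
      rw [card_insert_of_notMem hnot] at this
      have := h1 v hv
      omega
    have k2 : D' + 1 ≤ S'.card := by
      have hsub : insert v' (MrGC.nb Gᶜ S' v') ⊆ S' := by
        intro u hu
        rcases mem_insert.1 hu with rfl | hu
        · exact hv'
        · exact (mem_nb' hu).1
      have hnot : v' ∉ MrGC.nb Gᶜ S' v' := fun hh => Gᶜ.irrefl (mem_nb' hh).2
      have := card_le_card hsub
      rw [card_insert_of_notMem hnot] at this
      have := h2 v' hv'
      omega
    have k3 : S.card + S'.card ≤ n := by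
      rw [← card_union_of_disjoint hdis]
      exact (card_le_univ _).trans (by simp)
    omega
  · obtain ⟨v, hv, hv'⟩ := not_disjoint_iff.1 hdis
    have hd : Disjoint (MrGC.nb G S v) (MrGC.nb Gᶜ S' v) := by
      rw [disjoint_left]
      intro u hu hu'
      exact ((SimpleGraph.compl_adj G v u).1 (mem_nb' hu').2).2 (mem_nb' hu).2
    have hnot : v ∉ MrGC.nb G S v ∪ MrGC.nb Gᶜ S' v := by
      intro hh
      rcases mem_union.1 hh with hh | hh
      · exact G.irrefl (mem_nb' hh).2
      · exact Gᶜ.irrefl (mem_nb' hh).2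
    have hc : (insert v (MrGC.nb G S v ∪ MrGC.nb Gᶜ S' v)).card ≤ n :=
      (card_le_univ _).trans (by simp)
    rw [card_insert_of_notMem hnot, card_union_of_disjoint hd] at hc
    have := h1 v hv
    have := h2 v hv'
    omega

end GCP
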