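import Pool.Agent.GCP.Defs

/-!
# GCP-Fix: small deficient sets

PLAN. Consider the (finite, nonempty: it contains `∅`) set of all `B : Finset (Fin n)` with `B = ∅ ∨ (B.card < t ∧ hit Q B < B.card)`; let `B` be one
of maximal cardinality (`Finset.exists_max_image` on `univ.filter`). Then `B.card ≤ t`.
Let `T.card ≤ D` and put `R = T \ B`. CLAIM `R.card ≤ hit Q R`. Suppose not: `hit Q R < R.card`, so `R` is nonempty. If `t ≤ R.card` this contradicts `H`
(`R.card ≤ T.card ≤ D`). So `R.card < t`, and `(B ∪ R).card = B.card + R.card ≤ 2 t ≤ D`, `hit Q (B ∪ R) ≤ hit Q B + hit Q R < (B ∪ R).card`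
(`hit Q ∅ = 0`, for `B = ∅` use `hit Q R < R.card`); by `H` again `(B ∪ R).card < t`, so `B ∪ R` is in the set and larger than `B`: contradiction.
Then `T.card = (T ∩ B).card + R.card ≤ (T ∩ B).card + hit Q R ≤ (T ∩ B).card + hit Q T` (`hit` is monotone).
`hall`: the family `Fin.append Q (fun i => {B.orderEmbOfFin rfl i})` or, simpler, state it as below: `Q' : Fin (d + B.card) → Finset (Fin n)`,
`Fin.append Q (fun i => {((B.equivFin.symm i : B) : Fin n)})`: `hit Q' T = hit Q T + (T ∩ B).card` (only `≥` is needed); all its members are members of `Q` or singletons.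
-/

/-!
# GCP-Fix: small deficient sets

PLAN. Consider the (finite, nonempty: it contains `∅`) set of all `B : Finset (Fin n)` with `B = ∅ ∨ (B.card < t ∧ hit Q B < B.card)`; let `B` be one
of maximal cardinality (`Finset.exists_max_image` on `univ.filter`). Then `B.card ≤ t`.
Let `T.card ≤ D` and put `R = T \ B`. CLAIM `R.card ≤ hit Q R`. Suppose not: `hit Q R < R.card`, so `R` is nonempty. If `t ≤ R.card` this contradicts `H`
(`R.card ≤ T.card ≤ D`). So `R.card < t`, and `(B ∪ R).card = B.card + R.card ≤ 2 t ≤ D`, `hit Q (B ∪ R) ≤ hit Q B + hit Q R < (B ∪ R).card`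
(`hit Q ∅ = 0`, for `B = ∅` use `hit Q R < R.card`); by `H` again `(B ∪ R).card < t`, so `B ∪ R` is in the set and larger than `B`: contradiction.
Then `T.card = (T ∩ B).card + R.card ≤ (T ∩ B).card + hit Q R ≤ (T ∩ B).card + hit Q T` (`hit` is monotone).
`hall`: the family `Fin.append Q (fun i => {B.orderEmbOfFin rfl i})` or, simpler, state it as below: `Q' : Fin (d + B.card) → Finset (Fin n)`,
`Fin.append Q (fun i => {((B.equivFin.symm i : B) : Fin n)})`: `hit Q' T = hit Q T + (T ∩ B).card` (only `≥` is needed); all its members are members of `Q` or singletons.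
-/

set_option autoImplicit false

open Finset

namespace GCP

private theorem hit_mono {n d : ℕ} (Q : Fin d → Finset (Fin n)) {T T' : Finset (Fin n)} (h : T ⊆ T') :
    hit Q T ≤ hit Q T' := by
  classical
  unfold hit
  apply Finset.card_le_card
  intro j hj
  rw [Finset.mem_filter] at hj ⊢
  refine ⟨hj.1, fun hd => hj.2 ?_⟩
  exact Finset.disjoint_of_subset_right h hd

private theorem hit_empty {n d : ℕ} (Q : Fin d → Finset (Fin n)) : hit Q ∅ = 0 := by
  classical
  unfold hit
  rw [Finset.card_eq_zero, Finset.filter_eq_empty_iff]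
  intro j _
  simp

private theorem hit_union {n d : ℕ} (Q : Fin d → Finset (Fin n)) (S T : Finset (Fin n)) :
    hit Q (S ∪ T) ≤ hit Q S + hit Q T := by
  classical
  unfold hit
  refine le_trans (Finset.card_le_card ?_) (Finset.card_union_le _ _)
  intro j hj
  rw [Finset.mem_union, Finset.mem_filter, Finset.mem_filter]
  rw [Finset.mem_filter] at hj
  by_contra hc
  push Not at hc
  apply hj.2
  rw [Finset.disjoint_union_right]
  exact ⟨hc.1 (Finset.mem_univ _), hc.2 (Finset.mem_univ _)⟩

theorem fix {n d : ℕ} (Q : Fin d → Finset (Fin n)) (t D : ℕ) (ht : 2 * t ≤ D)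
    (H : ∀ T : Finset (Fin n), t ≤ T.card → T.card ≤ D → T.card ≤ hit Q T) :
    ∃ B : Finset (Fin n), B.card ≤ t ∧
      ∀ T : Finset (Fin n), T.card ≤ D → T.card ≤ hit Q T + (T ∩ B).card := by
  classical
  obtain ⟨B, hB, hmax⟩ := Finset.exists_max_image
    ((univ : Finset (Finset (Fin n))).filter (fun B => B = ∅ ∨ (B.card < t ∧ hit Q B < B.card)))
    Finset.card ⟨∅, by simp⟩
  rw [Finset.mem_filter] at hB
  have hBt : B.card ≤ t := by
    rcases hB.2 with h | h
    · rw [h]; simp
    · exact h.1.le
  refine ⟨B, hBt, fun T hT => ?_⟩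
  have hRT : (T \ B).card ≤ T.card := Finset.card_le_card Finset.sdiff_subset
  have key : (T \ B).card ≤ hit Q (T \ B) := by
    by_contra hc
    push Not at hc
    have hRt : (T \ B).card < t := by
      by_contra h
      push Not at h
      have := H (T \ B) h (by omega)
      omega
    have hcard : (B ∪ (T \ B)).card = B.card + (T \ B).card :=
      Finset.card_union_of_disjoint Finset.disjoint_sdiff
    have hu := hit_union Q B (T \ B)
    have hBh : hit Q B ≤ B.card := by
      rcases hB.2 with h | h
      · rw [h, hit_empty]; simp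
      · exact h.2.le
    have hlt : (B ∪ (T \ B)).card < t := by
      by_contra h
      push Not at h
      have := H (B ∪ (T \ B)) h (by omega)
      omega
    have hm := hmax (B ∪ (T \ B)) (by
      rw [Finset.mem_filter]
      exact ⟨Finset.mem_univ _, Or.inr ⟨hlt, by omega⟩⟩)
    have hpos : 0 < (T \ B).card := by omega
    omega
  have hsplit : (T ∩ B).card + (T \ B).card = T.card := Finset.card_inter_add_card_sdiff T B
  have hmono := hit_mono Q (Finset.sdiff_subset : T \ B ⊆ T)
  omega

theorem hall {n d : ℕ} (Q : Fin d → Finset (Fin n)) (t D : ℕ) (ht : 2 * t ≤ D)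
    (H : ∀ T : Finset (Fin n), t ≤ T.card → T.card ≤ D → T.card ≤ hit Q T) :
    ∃ (k : ℕ) (Q' : Fin (d + k) → Finset (Fin n)), k ≤ t ∧
      (∀ j, (∃ i, Q' j = Q i) ∨ ∃ v, Q' j = {v}) ∧
      ∀ T : Finset (Fin n), T.card ≤ D → Hall Q' T := by
  classical
  obtain ⟨B, hBt, hB⟩ := fix Q t D ht H
  refine ⟨B.card, Fin.append Q (fun i => {((B.equivFin.symm i : B) : Fin n)}), hBt, ?_, ?_⟩
  · intro j
    refine Fin.addCases (fun i => Or.inl ⟨i, ?_⟩) (fun i => Or.inr ⟨((B.equivFin.symm i : B) : Fin n), ?_⟩) j
    · rw [Fin.append_left]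
    · exact Fin.append_right _ _ i
  · intro T hT T' hT'
    have h1 := hB T' (le_trans (Finset.card_le_card hT') hT)
    refine le_trans h1 ?_
    set Q' : Fin (d + B.card) → Finset (Fin n) :=
      Fin.append Q (fun i => {((B.equivFin.symm i : B) : Fin n)}) with hQ'
    have hA : ((univ.filter (fun j : Fin d => ¬ Disjoint (Q j) T')).map (Fin.castAddEmb B.card)) ∪
        ((univ.filter (fun i : Fin B.card => ((B.equivFin.symm i : B) : Fin n) ∈ T')).map (Fin.natAddEmb d)) ⊆
        univ.filter (fun j => ¬ Disjoint (Q' j) T') := by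
      intro j hj
      rw [Finset.mem_union, Finset.mem_map, Finset.mem_map] at hj
      rw [Finset.mem_filter]
      refine ⟨Finset.mem_univ _, ?_⟩
      rcases hj with ⟨i, hi, rfl⟩ | ⟨i, hi, rfl⟩
      · rw [Finset.mem_filter] at hi
        have : Q' (Fin.castAddEmb B.card i) = Q i := Fin.append_left _ _ i
        rw [this]; exact hi.2
      · rw [Finset.mem_filter] at hi
        have : Q' (Fin.natAddEmb d i) = {((B.equivFin.symm i : B) : Fin n)} := Fin.append_right _ _ i
        rw [this, Finset.disjoint_singleton_left]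
        exact fun h => h hi.2
    have hD : Disjoint ((univ.filter (fun j : Fin d => ¬ Disjoint (Q j) T')).map (Fin.castAddEmb B.card))
        ((univ.filter (fun i : Fin B.card => ((B.equivFin.symm i : B) : Fin n) ∈ T')).map (Fin.natAddEmb d)) := by
      rw [Finset.disjoint_left]
      intro j h1 h2
      rw [Finset.mem_map] at h1 h2
      obtain ⟨a, -, ha⟩ := h1
      obtain ⟨b, -, hb⟩ := h2
      have hv := congrArg Fin.val (ha.trans hb.symm)
      have h3 : (Fin.castAddEmb B.card a : Fin (d + B.card)).val = a.val := rfl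
      have h4 : (Fin.natAddEmb d b : Fin (d + B.card)).val = d + b.val := rfl
      have := a.isLt
      omega
    have hC : (T' ∩ B).card = (univ.filter (fun i : Fin B.card => ((B.equivFin.symm i : B) : Fin n) ∈ T')).card := by
      symm
      refine Finset.card_bij (fun i _ => ((B.equivFin.symm i : B) : Fin n)) ?_ ?_ ?_
      · intro i hi
        rw [Finset.mem_filter] at hi
        rw [Finset.mem_inter]
        exact ⟨hi.2, (B.equivFin.symm i).2⟩
      · intro i _ i' _ h
        exact B.equivFin.symm.injective (Subtype.ext h)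
      · intro v hv
        rw [Finset.mem_inter] at hv
        refine ⟨B.equivFin ⟨v, hv.2⟩, ?_, ?_⟩
        · rw [Finset.mem_filter]
          refine ⟨Finset.mem_univ _, ?_⟩
          simpa using hv.1
        · simp
    have h2 : hit Q T' + (T' ∩ B).card =
        (((univ.filter (fun j : Fin d => ¬ Disjoint (Q j) T')).map (Fin.castAddEmb B.card)) ∪
        ((univ.filter (fun i : Fin B.card => ((B.equivFin.symm i : B) : Fin n) ∈ T')).map (Fin.natAddEmb d))).card := by
      rw [Finset.card_union_of_disjoint hD, Finset.card_map, Finset.card_map, hC]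
      rfl
    rw [h2]
    exact le_trans (Finset.card_le_card hA) (le_of_eq rfl)

end GCP
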