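import Pool.Agent.GCP.Defs
import Pool.Agent.GCT.Gen

/-!
# GCP-Gen: a generic matrix with prescribed support

PLAN. Variables `ι = Fin n × Fin d`, entries `a v j = if v ∈ Q j then MvPolynomial.X (v, j) else 0`.
For a set `T` with `Hall Q T`: by Hall's theorem (`Finset.all_card_le_biUnion_card_iff_exists_injective` for the index type
`{v // v ∈ T}` and `t v = univ.filter (fun j => v.1 ∈ Q j)`; for a finset `s` of `{v // v ∈ T}` let `T' = s.map (Embedding.subtype _)`,
the biUnion is the set of the `j` with `¬ Disjoint (Q j) T'`) there is an injective `f` with `v ∈ Q (f v)`.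
`GCT.gen_inj` with `R = Fin d`, `S = {v // v ∈ T}`, the matrix `fun j v => a v.1 j`, and the point `x0 (v, j) = 1` if `v ∈ T` and `j = f v`, else `0`:
the system says `∑ v, (if f v = j then c v else 0) = 0` for all `j`; take `j = f v`, by injectivity `c v = 0`.
So for this `T` the property 'for all `c : {v // v ∈ T} → ℝ`, if `∑ v, (if v ∈ Q j then x (v, j) else 0) * c v = 0` for all `j` then `c = 0`' is `GCT.Gen`.
`GCT.Gen.all` over all `T : Finset (Fin n)` (for `T` without Hall's condition take the property `True`, `gen_true`, i.e. use the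
property `Hall Q T → ...` and `Gen.mono`), then `Gen.exists_pt` gives the point `x`. Put `X v = WithLp.toLp 2 (fun j => if v ∈ Q j then x (v, j) else 0)`.
For `c : Fin n → ℝ` supported in `T` restrict the sum `∑ v, c v • X v` to `T` (`Finset.sum_subset`, `Finset.sum_coe_sort`).
-/

set_option autoImplicit false

open Finset

namespace GCP

private theorem gen_one {n d : ℕ} (Q : Fin d → Finset (Fin n)) (T : Finset (Fin n))
    (hT : Hall Q T) :
    GCT.Gen (fun x : Fin n × Fin d → ℝ => ∀ c : {v // v ∈ T} → ℝ,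
      (∀ j : Fin d, ∑ v : {v // v ∈ T}, (if v.1 ∈ Q j then x (v.1, j) else 0) * c v = 0) →
        ∀ v, c v = 0) := by
  classical
  obtain ⟨f, hf, hfm⟩ := (Finset.all_card_le_biUnion_card_iff_exists_injective
    (fun v : {v // v ∈ T} => (univ : Finset (Fin d)).filter (fun j => v.1 ∈ Q j))).1 (by
      intro s
      have h1 := hT (s.map (Function.Embedding.subtype _)) (by
        intro v hv
        obtain ⟨w, -, rfl⟩ := Finset.mem_map.1 hv
        exact w.2)
      rw [Finset.card_map] at h1
      refine h1.trans ?_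
      unfold hit
      apply Finset.card_le_card
      intro j hj
      rw [Finset.mem_filter, Finset.not_disjoint_iff] at hj
      obtain ⟨-, v, hv1, hv2⟩ := hj
      obtain ⟨w, hw, rfl⟩ := Finset.mem_map.1 hv2
      rw [Finset.mem_biUnion]
      exact ⟨w, hw, Finset.mem_filter.2 ⟨Finset.mem_univ _, hv1⟩⟩)
  have hmem : ∀ v : {v // v ∈ T}, v.1 ∈ Q (f v) := fun v => (Finset.mem_filter.1 (hfm v)).2
  have key := GCT.gen_inj (ι := Fin n × Fin d) (R := Fin d) (S := {v // v ∈ T})
    (fun j v => if v.1 ∈ Q j then MvPolynomial.X (v.1, j) else 0)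
    (fun p => if h : p.1 ∈ T then (if f ⟨p.1, h⟩ = p.2 then 1 else 0) else 0) (by
      intro c hc v0
      have h1 := hc (f v0)
      rw [Finset.sum_eq_single v0] at h1
      · rw [if_pos (hmem v0), MvPolynomial.eval_X, dif_pos v0.2, if_pos rfl, one_mul] at h1
        exact h1
      · intro v _ hv
        have h2 : f v ≠ f v0 := fun h => hv (hf h)
        by_cases h3 : v.1 ∈ Q (f v0)
        · rw [if_pos h3, MvPolynomial.eval_X, dif_pos v.2, if_neg h2, zero_mul]
        · rw [if_neg h3, map_zero, zero_mul]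
      · intro h
        exact absurd (Finset.mem_univ _) h)
  refine key.mono ?_
  intro x hx c hc
  apply hx c
  intro j
  rw [← hc j]
  refine Finset.sum_congr rfl fun v _ => ?_
  by_cases h3 : v.1 ∈ Q j
  · rw [if_pos h3, if_pos h3, MvPolynomial.eval_X]
  · rw [if_neg h3, if_neg h3, map_zero]

theorem gen {n d : ℕ} (Q : Fin d → Finset (Fin n)) :
    ∃ X : Fin n → EuclideanSpace ℝ (Fin d), (∀ v j, v ∉ Q j → X v j = 0) ∧
      ∀ T, Hall Q T → ∀ c : Fin n → ℝ, (∀ v, c v ≠ 0 → v ∈ T) → ∑ v, c v • X v = 0 → ∀ v, c v = 0 := by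
  classical
  obtain ⟨x, hx⟩ := GCT.Gen.exists_pt (GCT.Gen.all (κ := Finset (Fin n))
    (P := fun T (x : Fin n × Fin d → ℝ) => Hall Q T → ∀ c : {v // v ∈ T} → ℝ,
      (∀ j : Fin d, ∑ v : {v // v ∈ T}, (if v.1 ∈ Q j then x (v.1, j) else 0) * c v = 0) →
        ∀ v, c v = 0) (by
      intro T
      by_cases hT : Hall Q T
      · exact (gen_one Q T hT).mono fun x h _ => h
      · exact GCT.gen_true.mono fun x _ h => absurd h hT))
  refine ⟨fun v => WithLp.toLp 2 (fun j => if v ∈ Q j then x (v, j) else 0), ?_, ?_⟩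
  · intro v j hv
    simp [hv]
  · intro T hT c hc hsum v
    by_contra hv
    have hvT := hc v hv
    have h0 := hx T hT (fun w => c w.1) (by
      intro j
      rw [Finset.sum_coe_sort T (fun w => (if w ∈ Q j then x (w, j) else 0) * c w)]
      have h1 := congrArg (fun y : EuclideanSpace ℝ (Fin d) => y j) hsum
      simp only [WithLp.ofLp_sum, WithLp.ofLp_smul, Finset.sum_apply, Pi.smul_apply, smul_eq_mul,
        WithLp.ofLp_zero, Pi.zero_apply] at h1
      refine Eq.trans ?_ h1
      refine (Finset.sum_subset (Finset.subset_univ T) ?_).trans ?_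
      · intro w _ hw
        have h2 : c w = 0 := by
          by_contra h3
          exact hw (hc w h3)
        rw [h2, mul_zero]
      · refine Finset.sum_congr rfl fun w _ => mul_comm _ _) ⟨v, hvT⟩
    exact hv h0

end GCP
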