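import Pool.Agent.GCP.Rect

/-!
# GCP-Grph: graphs close to a graphon whose values are almost nowhere `0` or `1`

`cell n X` is the union of the intervals `[v / n, (v + 1) / n)`, `v ∈ X`. `Near W δ G`: after a relabelling the numbers of edges `e_G(X, Y)` differ from
`n ^ 2 ∫_{cell X × cell Y} W` by at most `δ n ^ 2` (cut distance). If the set where `W` is `0` or `1` has measure at most `τ / 16` then the graphs
close to `W` satisfy the density condition `Dense` with parameter `τ` (written by helper27, robust version).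
-/

set_option autoImplicit false

open Finset MeasureTheory

namespace GCP

/-- the union of the intervals `[v / n, (v + 1) / n)`, `v ∈ X` -/
def cell {n : ℕ} (X : Finset (Fin n)) : Set ℝ :=
  {x | ∃ v ∈ X, ((v : ℕ) : ℝ) / n ≤ x ∧ x < (((v : ℕ) : ℝ) + 1) / n}

/-- after a relabelling `σ` of the vertices the graph `G` has cut distance at most `δ` from `W` -/
def Near {n : ℕ} (W : ℝ × ℝ → ℝ) (δ : ℝ) (G : SimpleGraph (Fin n)) : Prop :=
  ∃ σ : Equiv.Perm (Fin n), ∀ X Y : Finset (Fin n),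
    |(edg G X Y : ℝ) - n ^ 2 * ∫ p in cell (X.map σ.toEmbedding) ×ˢ cell (Y.map σ.toEmbedding), W p| ≤
      δ * n ^ 2

private theorem g_eq {n : ℕ} (hn : 0 < n) {x : ℝ} {v w : Fin n}
    (hv : ((v : ℕ) : ℝ) / n ≤ x ∧ x < (((v : ℕ) : ℝ) + 1) / n)
    (hw : ((w : ℕ) : ℝ) / n ≤ x ∧ x < (((w : ℕ) : ℝ) + 1) / n) : v = w := by
  have hn' : (0 : ℝ) < n := by exact_mod_cast hn
  rw [div_le_iff₀ hn', lt_div_iff₀ hn'] at hv hw
  have h1 : ((v : ℕ) : ℝ) < ((w : ℕ) : ℝ) + 1 := by linarith [hv.1, hw.2]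
  have h2 : ((w : ℕ) : ℝ) < ((v : ℕ) : ℝ) + 1 := by linarith [hv.2, hw.1]
  have h3 : (v : ℕ) < (w : ℕ) + 1 := by exact_mod_cast h1
  have h4 : (w : ℕ) < (v : ℕ) + 1 := by exact_mod_cast h2
  exact Fin.ext (by omega)

private theorem g_cell {n : ℕ} (X : Finset (Fin n)) :
    cell X = ⋃ v ∈ X, Set.Ico (((v : ℕ) : ℝ) / n) ((((v : ℕ) : ℝ) + 1) / n) := by
  ext x
  simp only [cell, Set.mem_setOf_eq, Set.mem_iUnion, Set.mem_Ico, exists_prop]

private theorem g_meas {n : ℕ} (X : Finset (Fin n)) : MeasurableSet (cell X) := by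
  rw [g_cell]
  exact Finset.measurableSet_biUnion _ fun v _ => measurableSet_Ico

private theorem g_vol {n : ℕ} (hn : 0 < n) (X : Finset (Fin n)) :
    (volume : Measure ℝ).real (cell X) = (X.card : ℝ) / n := by
  have hn' : (0 : ℝ) < n := by exact_mod_cast hn
  have hfin : ∀ v ∈ X, (volume : Measure ℝ) (Set.Ico (((v : ℕ) : ℝ) / n) ((((v : ℕ) : ℝ) + 1) / n)) ≠ ⊤ :=
    fun v _ => measure_Ico_lt_top.ne
  rw [g_cell, measureReal_biUnion_finset _ _ hfin]
  · have h1 : ∀ v ∈ X, (volume : Measure ℝ).real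
        (Set.Ico (((v : ℕ) : ℝ) / n) ((((v : ℕ) : ℝ) + 1) / n)) = 1 / n := by
      intro v _
      rw [Real.volume_real_Ico_of_le]
      · ring
      · apply div_le_div_of_nonneg_right _ hn'.le
        linarith
    rw [Finset.sum_congr rfl h1, Finset.sum_const, nsmul_eq_mul]
    ring
  · intro v _ w _ hvw
    rw [Function.onFun, Set.disjoint_left]
    intro x hx hx'
    exact hvw (g_eq hn hx hx')
  · intro v _
    exact measurableSet_Ico

private theorem g_sub {n : ℕ} (hn : 0 < n) (X : Finset (Fin n)) : cell X ⊆ Set.Icc (0 : ℝ) 1 := by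
  have hn' : (0 : ℝ) < n := by exact_mod_cast hn
  rintro x ⟨v, _, h1, h2⟩
  refine ⟨le_trans (by positivity) h1, ?_⟩
  have h3 : (((v : ℕ) : ℝ) + 1) / n ≤ 1 := by
    rw [div_le_one hn']
    have := v.2
    exact_mod_cast this
  linarith

private theorem g_disj {n : ℕ} (hn : 0 < n) {X Y : Finset (Fin n)} (h : Disjoint X Y) :
    Disjoint (cell X) (cell Y) := by
  rw [Set.disjoint_left]
  rintro x ⟨v, hv, hv'⟩ ⟨w, hw, hw'⟩
  have h1 : v = w := g_eq hn hv' hw'
  subst h1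
  exact (Finset.disjoint_left.mp h) hv hw

private theorem g_volR {n : ℕ} (hn : 0 < n) (X Y : Finset (Fin n)) :
    (volume : Measure (ℝ × ℝ)).real (cell X ×ˢ cell Y) = (X.card : ℝ) * Y.card / n ^ 2 := by
  rw [Measure.volume_eq_prod, measureReal_prod_prod, g_vol hn, g_vol hn]
  ring

private theorem g_markov {W : ℝ × ℝ → ℝ} (hW : Measurable W) {I R : Set (ℝ × ℝ)}
    (hint : IntegrableOn W I) (h0 : ∀ᵐ p ∂(volume.restrict I), 0 ≤ W p) (hR : MeasurableSet R)
    (hRI : R ⊆ I) (hfin : volume R ≠ ⊤) (t : ℝ) :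
    t * (volume : Measure (ℝ × ℝ)).real (R \ {p | W p < t}) ≤ ∫ p in R, W p := by
  have hB : MeasurableSet {p | W p < t} := measurableSet_lt hW measurable_const
  have hintR : IntegrableOn W R := hint.mono_set hRI
  have h0R : ∀ᵐ p ∂(volume.restrict R), 0 ≤ W p := ae_restrict_of_ae_restrict_of_subset hRI h0
  have hfin' : volume (R \ {p | W p < t}) ≠ ⊤ :=
    ne_top_of_le_ne_top hfin (measure_mono Set.diff_subset)
  calc t * (volume : Measure (ℝ × ℝ)).real (R \ {p | W p < t}) = ∫ _p in R \ {p | W p < t}, t := by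
        rw [setIntegral_const, smul_eq_mul, mul_comm]
    _ ≤ ∫ p in R \ {p | W p < t}, W p := by
        apply setIntegral_mono_on (integrableOn_const hfin') (hintR.mono_set Set.diff_subset) (hR.diff hB)
        intro x hx
        exact not_lt.mp hx.2
    _ ≤ ∫ p in R, W p := setIntegral_mono_set hintR h0R (Filter.Eventually.of_forall Set.diff_subset)

private theorem g_small {W : ℝ × ℝ → ℝ} (hW : Measurable W) {κ : ℝ} (hκ : 0 < κ)
    (h0 : (volume.restrict (Set.Icc (0 : ℝ) 1 ×ˢ Set.Icc (0 : ℝ) 1)).real {p | W p ≤ 0} ≤ κ / 2) :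
    ∃ t : ℝ, 0 < t ∧ t ≤ 1 ∧
      (volume.restrict (Set.Icc (0 : ℝ) 1 ×ˢ Set.Icc (0 : ℝ) 1)).real {p | W p < t} ≤ κ := by
  set μ : Measure (ℝ × ℝ) := volume.restrict (Set.Icc (0 : ℝ) 1 ×ˢ Set.Icc (0 : ℝ) 1) with hμ
  have hIfin : volume (Set.Icc (0 : ℝ) 1 ×ˢ Set.Icc (0 : ℝ) 1) < ⊤ :=
    (isCompact_Icc.prod isCompact_Icc).measure_lt_top
  haveI : IsFiniteMeasure μ := ⟨by rw [hμ, Measure.restrict_apply_univ]; exact hIfin⟩
  set s : ℕ → Set (ℝ × ℝ) := fun k => {p | W p < 1 / ((k : ℝ) + 1)} with hs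
  have hsm : ∀ k, MeasurableSet (s k) := fun k => measurableSet_lt hW measurable_const
  have hanti : Antitone s := by
    intro i j hij p hp
    have h1 : (1 : ℝ) / ((j : ℝ) + 1) ≤ 1 / ((i : ℝ) + 1) := by
      apply one_div_le_one_div_of_le (by positivity)
      have : (i : ℝ) ≤ j := by exact_mod_cast hij
      linarith
    exact lt_of_lt_of_le hp h1
  have hκ' : ENNReal.ofReal (κ / 2) < ENNReal.ofReal κ :=
    (ENNReal.ofReal_lt_ofReal_iff hκ).mpr (by linarith)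
  have hinter : μ (⋂ k, s k) < ENNReal.ofReal κ := by
    have h1 : (⋂ k, s k) ⊆ {p | W p ≤ 0} := by
      intro p hp
      rw [Set.mem_iInter] at hp
      by_contra hpos
      obtain ⟨k, hk⟩ := exists_nat_one_div_lt (not_le.mp (show ¬ W p ≤ 0 from hpos))
      exact absurd (hp k) (not_lt.mpr hk.le)
    refine lt_of_le_of_lt (measure_mono h1) (lt_of_le_of_lt ?_ hκ')
    rw [← ENNReal.toReal_le_toReal (measure_ne_top _ _) ENNReal.ofReal_ne_top,
      ENNReal.toReal_ofReal (by positivity)]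
    exact h0
  have htend := tendsto_measure_iInter_atTop (μ := μ) (fun k => (hsm k).nullMeasurableSet) hanti
    ⟨0, measure_ne_top _ _⟩
  obtain ⟨k, hk⟩ := ((tendsto_order.mp htend).2 _ hinter).exists
  refine ⟨1 / ((k : ℝ) + 1), by positivity, ?_, ?_⟩
  · rw [div_le_one (by positivity)]
    have : (0 : ℝ) ≤ k := Nat.cast_nonneg k
    linarith
  · rw [measureReal_def]
    exact ENNReal.toReal_le_of_le_ofReal hκ.le hk.le

private theorem g_card {n M : ℕ} (hM : 0 < M) (hMn : M ≤ n) {c : ℕ} (hc : n / M ≤ c) :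
    (n : ℝ) / (2 * M) ≤ c := by
  have hM' : (0 : ℝ) < M := by exact_mod_cast hM
  have h1 : 1 ≤ n / M := (Nat.one_le_div_iff hM).mpr hMn
  have h2 : n < M * (n / M + 1) := Nat.lt_mul_div_succ n hM
  have h3 : n ≤ 2 * M * c := by nlinarith
  rw [div_le_iff₀ (by positivity)]
  have h4 : (n : ℝ) ≤ ((2 * M * c : ℕ) : ℝ) := by exact_mod_cast h3
  push_cast at h4
  linarith

private theorem g_abs (W : ℝ × ℝ → ℝ) (hW : Measurable W)
    (h0 : ∀ᵐ p ∂(volume.restrict (Set.Icc (0 : ℝ) 1 ×ˢ Set.Icc (0 : ℝ) 1)), 0 ≤ W p ∧ W p ≤ 1)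
    (τ : ℝ) (hτ : 0 < τ)
    (hz : (volume.restrict (Set.Icc (0 : ℝ) 1 ×ˢ Set.Icc (0 : ℝ) 1)).real {p | W p ≤ 0} ≤ τ / 16) : ∃ η : ℝ, 0 < η ∧ η ≤ 1 ∧ ∀ N : ℕ, ∃ δ : ℝ, 0 < δ ∧ ∃ n0 : ℕ, ∀ n ≥ n0,
      ∀ (σ : Equiv.Perm (Fin n)) (F : Finset (Fin n) → Finset (Fin n) → ℝ),
      (∀ X Y : Finset (Fin n), Disjoint X Y →
        |F X Y - n ^ 2 * ∫ p in cell (X.map σ.toEmbedding) ×ˢ cell (Y.map σ.toEmbedding), W p| ≤
          δ * n ^ 2) →
      ∀ P : Finpartition (univ : Finset (Fin n)), P.IsEquipartition → P.parts.card ≤ N →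
        ∀ B : Finset (Finset (Fin n) × Finset (Fin n)),
        (∀ q ∈ B, q.1 ∈ P.parts ∧ q.2 ∈ P.parts ∧ q.1 ≠ q.2 ∧ F q.1 q.2 < η * (q.1.card * q.2.card)) →
        (B.card : ℝ) ≤ τ * P.parts.card ^ 2 := by
  set I : Set (ℝ × ℝ) := Set.Icc (0 : ℝ) 1 ×ˢ Set.Icc (0 : ℝ) 1 with hI
  have hIfin : volume I < ⊤ := (isCompact_Icc.prod isCompact_Icc).measure_lt_top
  have hnn : ∀ᵐ p ∂(volume.restrict I), 0 ≤ W p := h0.mono fun p hp => hp.1
  have hint : IntegrableOn W I := by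
    apply Measure.integrableOn_of_bounded (M := 1) hIfin.ne hW.aestronglyMeasurable
    exact h0.mono fun p hp => by
      rw [Real.norm_eq_abs, abs_of_nonneg hp.1]
      exact hp.2
  haveI : IsFiniteMeasure (volume.restrict I) := ⟨by rw [Measure.restrict_apply_univ]; exact hIfin⟩
  obtain ⟨t, ht0, ht1, ht⟩ := g_small hW (κ := τ / 8) (by positivity) (hz.trans (by linarith))
  refine ⟨t / 4, by positivity, by linarith, fun N => ?_⟩
  refine ⟨t / 4 / (4 * ((N : ℝ) + 1) ^ 2), by positivity, N + 1, fun n hn σ F hF P hP hPN B hB => ?_⟩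
  have hn0 : 0 < n := by omega
  have hn' : (0 : ℝ) < n := by exact_mod_cast hn0
  set M : ℕ := P.parts.card with hM
  have hM0 : 0 < M := by
    rw [hM, Finset.card_pos]
    haveI : Nonempty (Fin n) := ⟨⟨0, hn0⟩⟩
    exact P.parts_nonempty (Finset.univ_nonempty.ne_empty)
  have hMn : M ≤ n := by omega
  have hM' : (0 : ℝ) < M := by exact_mod_cast hM0
  have hMN : (M : ℝ) ≤ N := by exact_mod_cast hPN
  set T : Set (ℝ × ℝ) := {p | W p < t} with hT
  have hTm : MeasurableSet T := measurableSet_lt hW measurable_const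
  let R : Finset (Fin n) × Finset (Fin n) → Set (ℝ × ℝ) := fun q =>
    cell (q.1.map σ.toEmbedding) ×ˢ cell (q.2.map σ.toEmbedding)
  have hRm : ∀ q, MeasurableSet (R q) := fun q => (g_meas _).prod (g_meas _)
  have hRI : ∀ q, R q ⊆ I := fun q => Set.prod_mono (g_sub hn0 _) (g_sub hn0 _)
  have hRfin : ∀ q, volume (R q) ≠ ⊤ := fun q => ne_top_of_le_ne_top hIfin.ne (measure_mono (hRI q))
  have hRvol : ∀ q, (volume : Measure (ℝ × ℝ)).real (R q) = (q.1.card : ℝ) * q.2.card / n ^ 2 := by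
    intro q
    show (volume : Measure (ℝ × ℝ)).real (cell _ ×ˢ cell _) = _
    rw [g_volR hn0, Finset.card_map, Finset.card_map]
  have hbig : ∀ q ∈ B, 1 / (8 * (M : ℝ) ^ 2) ≤ (volume.restrict I).real (R q ∩ T) := by
    intro q hq
    obtain ⟨h1, h2, hne, hlt⟩ := hB q hq
    have hd : Disjoint q.1 q.2 := P.disjoint h1 h2 hne
    have hc1 : (n : ℝ) / (2 * M) ≤ q.1.card := by
      apply g_card hM0 hMn
      have := hP.average_le_card_part h1
      rwa [Finset.card_univ, Fintype.card_fin] at this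
    have hc2 : (n : ℝ) / (2 * M) ≤ q.2.card := by
      apply g_card hM0 hMn
      have := hP.average_le_card_part h2
      rwa [Finset.card_univ, Fintype.card_fin] at this
    have hprod : (n : ℝ) ^ 2 / (4 * M ^ 2) ≤ (q.1.card : ℝ) * q.2.card := by
      have h3 : (n : ℝ) / (2 * M) * (n / (2 * M)) ≤ (q.1.card : ℝ) * q.2.card :=
        mul_le_mul hc1 hc2 (by positivity) (by positivity)
      have h4 : (n : ℝ) / (2 * M) * (n / (2 * M)) = (n : ℝ) ^ 2 / (4 * M ^ 2) := by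
        field_simp
        ring
      rwa [h4] at h3
    set c : ℝ := (q.1.card : ℝ) * q.2.card with hc
    have hclow : (n : ℝ) ^ 2 ≤ c * (4 * M ^ 2) := by
      rwa [div_le_iff₀ (by positivity)] at hprod
    have hδ : t / 4 / (4 * ((N : ℝ) + 1) ^ 2) * n ^ 2 ≤ t / 4 * c := by
      rw [div_mul_eq_mul_div, div_le_iff₀ (by positivity)]
      have h5 : (M : ℝ) ^ 2 ≤ ((N : ℝ) + 1) ^ 2 := by
        apply pow_le_pow_left₀ hM'.le
        linarith
      have hc0 : 0 ≤ c := by positivity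
      have h6 : (n : ℝ) ^ 2 ≤ c * (4 * ((N : ℝ) + 1) ^ 2) :=
        hclow.trans (mul_le_mul_of_nonneg_left (by linarith) hc0)
      calc t / 4 * (n : ℝ) ^ 2 ≤ t / 4 * (c * (4 * ((N : ℝ) + 1) ^ 2)) :=
            mul_le_mul_of_nonneg_left h6 (by positivity)
        _ = t / 4 * c * (4 * ((N : ℝ) + 1) ^ 2) := by ring
    have hFq := hF q.1 q.2 hd
    have hFq' := (abs_le.mp hFq).1
    have hintR : (n : ℝ) ^ 2 * ∫ p in R q, W p < t / 2 * c := by
      have : F q.1 q.2 < t / 4 * c := hlt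
      have h7 : (n : ℝ) ^ 2 * ∫ p in R q, W p ≤ F q.1 q.2 + t / 4 / (4 * ((N : ℝ) + 1) ^ 2) * n ^ 2 := by
        show (n : ℝ) ^ 2 * ∫ p in cell (q.1.map σ.toEmbedding) ×ˢ cell (q.2.map σ.toEmbedding), W p ≤ _
        linarith
      linarith
    have hmk := g_markov hW hint hnn (hRm q) (hRI q) (hRfin q) t
    have hv := hRvol q
    have hsplit := measureReal_diff_add_inter (μ := (volume : Measure (ℝ × ℝ))) (s := R q) hTm (hRfin q)
    have hres : (volume.restrict I).real (R q ∩ T) = (volume : Measure (ℝ × ℝ)).real (R q ∩ T) := by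
      rw [measureReal_restrict_apply ((hRm q).inter hTm)]
      congr 1
      rw [Set.inter_eq_left]
      exact Set.inter_subset_left.trans (hRI q)
    rw [hres]
    set A1 : ℝ := (volume : Measure (ℝ × ℝ)).real (R q \ T) with hA1
    set A2 : ℝ := (volume : Measure (ℝ × ℝ)).real (R q ∩ T) with hA2
    have h8 : (n : ℝ) ^ 2 * (t * A1) < t / 2 * c :=
      lt_of_le_of_lt (mul_le_mul_of_nonneg_left hmk (by positivity)) hintR
    have h9 : (n : ℝ) ^ 2 * A1 < c / 2 := by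
      have h10 : t * ((n : ℝ) ^ 2 * A1) < t * (c / 2) := by linarith
      exact lt_of_mul_lt_mul_left h10 ht0.le
    have h11 : (n : ℝ) ^ 2 * (A1 + A2) = c := by
      rw [hsplit, hv, hc]
      field_simp
    have h12 : c / 2 ≤ (n : ℝ) ^ 2 * A2 := by linarith
    rw [div_le_iff₀ (by positivity)]
    have hn2 : (0 : ℝ) < (n : ℝ) ^ 2 := by positivity
    have h13 : (n : ℝ) ^ 2 * 1 ≤ (n : ℝ) ^ 2 * (A2 * (8 * (M : ℝ) ^ 2)) := by
      calc (n : ℝ) ^ 2 * 1 ≤ c * (4 * M ^ 2) := by linarith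
        _ = c / 2 * (8 * (M : ℝ) ^ 2) := by ring
        _ ≤ (n : ℝ) ^ 2 * A2 * (8 * (M : ℝ) ^ 2) := mul_le_mul_of_nonneg_right h12 (by positivity)
        _ = (n : ℝ) ^ 2 * (A2 * (8 * (M : ℝ) ^ 2)) := by ring
    exact le_of_mul_le_mul_left h13 hn2
  have hdisj : Set.PairwiseDisjoint (B : Set (Finset (Fin n) × Finset (Fin n))) fun q => R q ∩ T := by
    intro q hq q' hq' hne
    rw [Function.onFun]
    apply Set.disjoint_of_subset Set.inter_subset_left Set.inter_subset_left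
    obtain ⟨h1, h2, -, -⟩ := hB q hq
    obtain ⟨h3, h4, -, -⟩ := hB q' hq'
    show Disjoint (cell _ ×ˢ cell _) (cell _ ×ˢ cell _)
    rw [Set.disjoint_prod]
    by_cases he : q.1 = q'.1
    · right
      have he2 : q.2 ≠ q'.2 := fun h => hne (Prod.ext he h)
      apply g_disj hn0
      rw [Finset.disjoint_map]
      exact P.disjoint h2 h4 he2
    · left
      apply g_disj hn0
      rw [Finset.disjoint_map]
      exact P.disjoint h1 h3 he
  have hunion : ∑ q ∈ B, (volume.restrict I).real (R q ∩ T) ≤ (volume.restrict I).real T := by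
    rw [← measureReal_biUnion_finset hdisj (fun q _ => (hRm q).inter hTm)]
    have hsubT : (⋃ q ∈ B, R q ∩ T) ⊆ T := by
      intro p hp
      simp only [Set.mem_iUnion] at hp
      obtain ⟨q, -, hp⟩ := hp
      exact hp.2
    exact measureReal_mono hsubT (measure_ne_top _ _)
  have hsum : (B.card : ℝ) * (1 / (8 * (M : ℝ) ^ 2)) ≤ τ / 8 := by
    calc (B.card : ℝ) * (1 / (8 * (M : ℝ) ^ 2)) = ∑ _q ∈ B, 1 / (8 * (M : ℝ) ^ 2) := by
          rw [Finset.sum_const, nsmul_eq_mul]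
      _ ≤ ∑ q ∈ B, (volume.restrict I).real (R q ∩ T) := Finset.sum_le_sum hbig
      _ ≤ (volume.restrict I).real T := hunion
      _ ≤ τ / 8 := ht
  have hM2 : (0 : ℝ) < 8 * (M : ℝ) ^ 2 := by positivity
  rw [mul_one_div, div_le_iff₀ hM2] at hsum
  linarith

theorem grph (W : ℝ × ℝ → ℝ) (hW : Measurable W)
    (h0 : ∀ᵐ p ∂(volume.restrict (Set.Icc (0 : ℝ) 1 ×ˢ Set.Icc (0 : ℝ) 1)), 0 ≤ W p ∧ W p ≤ 1)
    (τ : ℝ) (hτ : 0 < τ)
    (hz : (volume.restrict (Set.Icc (0 : ℝ) 1 ×ˢ Set.Icc (0 : ℝ) 1)).real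
      {p | W p ≤ 0 ∨ 1 ≤ W p} ≤ τ / 16) : ∃ η : ℝ, 0 < η ∧ η ≤ 1 ∧ ∀ N : ℕ, ∃ δ : ℝ, 0 < δ ∧ ∃ n0 : ℕ, ∀ n ≥ n0,
      ∀ G : SimpleGraph (Fin n), Near W δ G → Dense G τ η N ∧ Dense Gᶜ τ η N := by
  have hIfin0 : volume (Set.Icc (0 : ℝ) 1 ×ˢ Set.Icc (0 : ℝ) 1) < ⊤ :=
    (isCompact_Icc.prod isCompact_Icc).measure_lt_top
  haveI : IsFiniteMeasure (volume.restrict (Set.Icc (0 : ℝ) 1 ×ˢ Set.Icc (0 : ℝ) 1)) :=
    ⟨by rw [Measure.restrict_apply_univ]; exact hIfin0⟩
  obtain ⟨η1, hη1, hη1', h1⟩ := g_abs W hW h0 τ hτ ((measureReal_mono (fun p hp => Or.inl hp)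
    (measure_ne_top _ _)).trans hz)
  have h0' : ∀ᵐ p ∂(volume.restrict (Set.Icc (0 : ℝ) 1 ×ˢ Set.Icc (0 : ℝ) 1)),
      0 ≤ (fun p => 1 - W p) p ∧ (fun p => 1 - W p) p ≤ 1 :=
    h0.mono fun p hp => ⟨by linarith [hp.2], by linarith [hp.1]⟩
  obtain ⟨η2, hη2, hη2', h2⟩ := g_abs (fun p => 1 - W p) (measurable_const.sub hW) h0' τ hτ
    ((measureReal_mono (fun p (hp : 1 - W p ≤ 0) => Or.inr (by linarith))
    (measure_ne_top _ _)).trans hz)
  refine ⟨min η1 η2, lt_min hη1 hη2, (min_le_left _ _).trans hη1', fun N => ?_⟩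
  obtain ⟨δ1, hδ1, n1, h1⟩ := h1 N
  obtain ⟨δ2, hδ2, n2, h2⟩ := h2 N
  refine ⟨min δ1 δ2, lt_min hδ1 hδ2, max (max n1 n2) 1, fun n hn G hG => ?_⟩
  obtain ⟨σ, hσ⟩ := hG
  have hn1 : n1 ≤ n := ((le_max_left _ _).trans (le_max_left _ _)).trans hn
  have hn2 : n2 ≤ n := ((le_max_right _ _).trans (le_max_left _ _)).trans hn
  have hn0 : 0 < n := lt_of_lt_of_le one_pos ((le_max_right _ _).trans hn)
  have hn' : (0 : ℝ) < n := by exact_mod_cast hn0
  have hn2' : (0 : ℝ) ≤ (n : ℝ) ^ 2 := by positivity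
  constructor
  · intro P hP hPN
    apply h1 n hn1 σ (fun X Y => (edg G X Y : ℝ)) _ P hP hPN
    · intro q hq
      rw [Finset.mem_filter, Finset.mem_product] at hq
      refine ⟨hq.1.1, hq.1.2, hq.2.1, lt_of_lt_of_le hq.2.2 ?_⟩
      exact mul_le_mul_of_nonneg_right (min_le_left _ _) (by positivity)
    · intro X Y _
      exact (hσ X Y).trans (mul_le_mul_of_nonneg_right (min_le_left _ _) hn2')
  · intro P hP hPN
    apply h2 n hn2 σ (fun X Y => (edg Gᶜ X Y : ℝ)) _ P hP hPN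
    · intro q hq
      rw [Finset.mem_filter, Finset.mem_product] at hq
      refine ⟨hq.1.1, hq.1.2, hq.2.1, lt_of_lt_of_le hq.2.2 ?_⟩
      exact mul_le_mul_of_nonneg_right (min_le_right _ _) (by positivity)
    · intro X Y hXY
      have hIfin : volume (Set.Icc (0 : ℝ) 1 ×ˢ Set.Icc (0 : ℝ) 1) < ⊤ :=
        (isCompact_Icc.prod isCompact_Icc).measure_lt_top
      have hint : IntegrableOn W (Set.Icc (0 : ℝ) 1 ×ˢ Set.Icc (0 : ℝ) 1) := by
        apply Measure.integrableOn_of_bounded (M := 1) hIfin.ne hW.aestronglyMeasurable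
        exact h0.mono fun p hp => by
          rw [Real.norm_eq_abs, abs_of_nonneg hp.1]
          exact hp.2
      have hRI : cell (X.map σ.toEmbedding) ×ˢ cell (Y.map σ.toEmbedding) ⊆
          Set.Icc (0 : ℝ) 1 ×ˢ Set.Icc (0 : ℝ) 1 := Set.prod_mono (g_sub hn0 _) (g_sub hn0 _)
      have hRfin : volume (cell (X.map σ.toEmbedding) ×ˢ cell (Y.map σ.toEmbedding)) ≠ ⊤ :=
        ne_top_of_le_ne_top hIfin.ne (measure_mono hRI)
      have hsub : ∫ p in cell (X.map σ.toEmbedding) ×ˢ cell (Y.map σ.toEmbedding), (1 - W p) =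
          (X.card : ℝ) * Y.card / n ^ 2 -
            ∫ p in cell (X.map σ.toEmbedding) ×ˢ cell (Y.map σ.toEmbedding), W p := by
        have hone : IntegrableOn (fun _ : ℝ × ℝ => (1 : ℝ))
            (cell (X.map σ.toEmbedding) ×ˢ cell (Y.map σ.toEmbedding)) := integrableOn_const hRfin
        rw [integral_sub hone (hint.mono_set hRI), setIntegral_const, smul_eq_mul,
          mul_one, g_volR hn0, Finset.card_map, Finset.card_map]
      have hb := hσ X Y
      have hcomp := edg_compl G hXY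
      show |(edg Gᶜ X Y : ℝ) - n ^ 2 *
        ∫ p in cell (X.map σ.toEmbedding) ×ˢ cell (Y.map σ.toEmbedding), (1 - W p)| ≤ _
      rw [hsub, hcomp]
      have he : ((X.card : ℝ) * Y.card - edg G X Y) - n ^ 2 * ((X.card : ℝ) * Y.card / n ^ 2 -
            ∫ p in cell (X.map σ.toEmbedding) ×ˢ cell (Y.map σ.toEmbedding), W p) =
          -((edg G X Y : ℝ) - n ^ 2 *
            ∫ p in cell (X.map σ.toEmbedding) ×ˢ cell (Y.map σ.toEmbedding), W p) := by
        have h3 : (n : ℝ) ^ 2 * ((X.card : ℝ) * Y.card / n ^ 2) = X.card * Y.card := by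
          field_simp
        rw [mul_sub, h3]
        ring
      rw [he, abs_neg]
      exact hb.trans (mul_le_mul_of_nonneg_right (min_le_right _ _) hn2')

end GCP
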