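import Pool.Agent.GCP.Defs

/-!
# GCP-Reg: Szemeredi's regularity lemma in the form used here
-/

set_option autoImplicit false

open Finset

namespace GCP

/-- the real density -/
noncomputable def dn {n : ℕ} (G : SimpleGraph (Fin n)) (U V : Finset (Fin n)) : ℝ :=
  (edg G U V : ℝ) / (U.card * V.card)

/-- the pair of parts is not good -/
def BadP {n : ℕ} (G : SimpleGraph (Fin n)) (ε η : ℝ) (U V : Finset (Fin n)) : Prop :=
  U = V ∨ ¬ Cut G U V ε (dn G U V) ∨ dn G U V < η

open Classical in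
private theorem reg_dn_eq {n : ℕ} (G : SimpleGraph (Fin n)) (U V : Finset (Fin n)) :
    ((G.edgeDensity U V : ℚ) : ℝ) = dn G U V := by
  unfold dn edg
  rw [SimpleGraph.edgeDensity_def]
  push_cast
  simp only [SimpleGraph.interedges, Rel.interedges]

private theorem reg_edg_le {n : ℕ} (G : SimpleGraph (Fin n)) (X Y : Finset (Fin n)) :
    (edg G X Y : ℝ) ≤ X.card * Y.card := by
  classical
  have h : edg G X Y ≤ X.card * Y.card := by
    unfold edg
    exact (card_filter_le _ _).trans (by rw [card_product])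
  exact_mod_cast h

private theorem reg_dn_mul {n : ℕ} (G : SimpleGraph (Fin n)) (X Y : Finset (Fin n)) :
    (edg G X Y : ℝ) = dn G X Y * (X.card * Y.card) := by
  unfold dn
  by_cases h : (X.card : ℝ) * Y.card = 0
  · have h1 := reg_edg_le G X Y
    have h2 : (0 : ℝ) ≤ (edg G X Y : ℝ) := Nat.cast_nonneg _
    rw [h] at h1 ⊢
    linarith
  · rw [div_mul_cancel₀ _ h]

private theorem reg_dn_nonneg {n : ℕ} (G : SimpleGraph (Fin n)) (X Y : Finset (Fin n)) :
    0 ≤ dn G X Y := by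
  unfold dn
  positivity

private theorem reg_dn_le_one {n : ℕ} (G : SimpleGraph (Fin n)) (X Y : Finset (Fin n)) :
    dn G X Y ≤ 1 := by
  unfold dn
  exact div_le_one_of_le₀ (reg_edg_le G X Y) (by positivity)

open Classical in
private theorem reg_cut {n : ℕ} (G : SimpleGraph (Fin n)) (ε : ℝ) (hε : 0 < ε)
    (U V : Finset (Fin n)) (h : G.IsUniform ε U V) : Cut G U V ε (dn G U V) := by
  intro X hX Y hY
  have hXU : (X.card : ℝ) ≤ U.card := by exact_mod_cast card_le_card hX
  have hYV : (Y.card : ℝ) ≤ V.card := by exact_mod_cast card_le_card hY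
  have hX0 : (0 : ℝ) ≤ X.card := Nat.cast_nonneg _
  have hY0 : (0 : ℝ) ≤ Y.card := Nat.cast_nonneg _
  have hU0 : (0 : ℝ) ≤ U.card := Nat.cast_nonneg _
  have hV0 : (0 : ℝ) ≤ V.card := Nat.cast_nonneg _
  have hXY0 : (0 : ℝ) ≤ X.card * Y.card := mul_nonneg hX0 hY0
  have hXYUV : (X.card : ℝ) * Y.card ≤ U.card * V.card := mul_le_mul hXU hYV hY0 hU0
  -- the rough bound
  have hrough : |(edg G X Y : ℝ) - dn G U V * (X.card * Y.card)| ≤ X.card * Y.card := by
    have h1 := reg_edg_le G X Y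
    have h0 : (0 : ℝ) ≤ (edg G X Y : ℝ) := Nat.cast_nonneg _
    have h2 : 0 ≤ dn G U V * (X.card * Y.card) := mul_nonneg (reg_dn_nonneg G U V) hXY0
    have h3 : dn G U V * (X.card * Y.card) ≤ 1 * (X.card * Y.card) :=
      mul_le_mul_of_nonneg_right (reg_dn_le_one G U V) hXY0
    rw [abs_le]
    constructor
    · linarith
    · linarith
  by_cases hx : (U.card : ℝ) * ε ≤ X.card
  · by_cases hy : (V.card : ℝ) * ε ≤ Y.card
    · have h2 := h hX hY hx hy
      rw [reg_dn_eq, reg_dn_eq] at h2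
      rw [reg_dn_mul G X Y, ← sub_mul, abs_mul, abs_of_nonneg hXY0]
      exact mul_le_mul h2.le hXYUV hXY0 hε.le
    · push Not at hy
      refine hrough.trans ?_
      calc (X.card : ℝ) * Y.card ≤ U.card * (V.card * ε) := mul_le_mul hXU hy.le hY0 hU0
        _ = ε * (U.card * V.card) := by ring
  · push Not at hx
    refine hrough.trans ?_
    calc (X.card : ℝ) * Y.card ≤ (U.card * ε) * V.card := mul_le_mul hx.le hYV hY0
          (mul_nonneg hU0 hε.le)
      _ = ε * (U.card * V.card) := by ring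

open Classical in
theorem reg (ε : ℝ) (hε : 0 < ε) (hε1 : ε ≤ 1) (l : ℕ) (hl : 0 < l) : ∃ N : ℕ, ∀ n ≥ l,
    ∀ (G : SimpleGraph (Fin n)) (τ η : ℝ), Dense G τ η N →
    ∃ P : Finpartition (univ : Finset (Fin n)), P.IsEquipartition ∧ P.parts.Nonempty ∧
      (((P.parts ×ˢ P.parts).filter (fun q => BadP G ε η q.1 q.2)).card : ℝ) ≤
        (1 / l + ε + τ) * P.parts.card ^ 2 := by
  refine ⟨SzemerediRegularity.bound ε l, ?_⟩
  intro n hn G τ η hD
  obtain ⟨P, hPe, hPl, hPN, hPu⟩ := szemeredi_regularity G hε (l := l)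
    (by rw [Fintype.card_fin]; exact hn)
  refine ⟨P, hPe, card_pos.mp (lt_of_lt_of_le hl hPl), ?_⟩
  have hne : ∀ U ∈ P.parts, (0 : ℝ) < (U.card : ℝ) := by
    intro U hU
    have := (P.nonempty_of_mem_parts hU).card_pos
    exact_mod_cast this
  set M : ℝ := (P.parts.card : ℝ) with hM
  have hlM : (l : ℝ) ≤ M := by rw [hM]; exact_mod_cast hPl
  have hl0 : (0 : ℝ) < l := by exact_mod_cast hl
  have hM0 : (0 : ℝ) < M := lt_of_lt_of_le hl0 hlM
  have hsub : ((P.parts ×ˢ P.parts).filter (fun q => BadP G ε η q.1 q.2)) ⊆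
      P.parts.diag ∪ (P.nonUniforms G ε ∪ (P.parts ×ˢ P.parts).filter (fun q => q.1 ≠ q.2 ∧
      (edg G q.1 q.2 : ℝ) < η * (q.1.card * q.2.card))) := by
    rintro ⟨U, V⟩ hq
    rw [mem_filter, mem_product] at hq
    obtain ⟨⟨hU, hV⟩, hb⟩ := hq
    rw [mem_union, mem_union]
    by_cases hUV : U = V
    · left
      rw [mem_diag]
      exact ⟨hU, hUV⟩
    right
    by_cases hun : G.IsUniform ε U V
    · right
      rw [mem_filter, mem_product]
      refine ⟨⟨hU, hV⟩, hUV, ?_⟩
      rcases hb with hb | hb | hb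
      · exact absurd hb hUV
      · exact absurd (reg_cut G ε hε U V hun) hb
      · change (edg G U V : ℝ) < η * (U.card * V.card)
        rw [reg_dn_mul G U V]
        exact mul_lt_mul_of_pos_right hb (mul_pos (hne U hU) (hne V hV))
    · left
      rw [Finpartition.mk_mem_nonUniforms]
      exact ⟨hU, hV, hUV, hun⟩
  have hcard := (card_le_card hsub).trans ((card_union_le _ _).trans
    (Nat.add_le_add_left (card_union_le _ _) _))
  have hcard' : (((P.parts ×ˢ P.parts).filter (fun q => BadP G ε η q.1 q.2)).card : ℝ) ≤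
      (P.parts.diag.card : ℝ) + (((P.nonUniforms G ε).card : ℝ) +
      (((P.parts ×ˢ P.parts).filter (fun q => q.1 ≠ q.2 ∧
      (edg G q.1 q.2 : ℝ) < η * (q.1.card * q.2.card))).card : ℝ)) := by
    exact_mod_cast hcard
  have h1 : (P.parts.diag.card : ℝ) ≤ 1 / l * M ^ 2 := by
    rw [diag_card, ← hM, div_mul_eq_mul_div, one_mul, le_div_iff₀ hl0]
    nlinarith
  have h2 : ((P.nonUniforms G ε).card : ℝ) ≤ ε * M ^ 2 := by
    have h3 : ((P.nonUniforms G ε).card : ℝ) ≤
        ((P.parts.card * (P.parts.card - 1) : ℕ) : ℝ) * ε := hPu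
    have h4 : ((P.parts.card * (P.parts.card - 1) : ℕ) : ℝ) ≤ M ^ 2 := by
      have h5 : P.parts.card * (P.parts.card - 1) ≤ P.parts.card ^ 2 := by
        rw [sq]
        exact Nat.mul_le_mul_left _ (Nat.sub_le _ _)
      rw [hM]
      exact_mod_cast h5
    calc ((P.nonUniforms G ε).card : ℝ) ≤ _ := h3
      _ ≤ M ^ 2 * ε := mul_le_mul_of_nonneg_right h4 hε.le
      _ = ε * M ^ 2 := by ring
  have h3 := hD P hPe hPN
  rw [← hM] at h3
  calc _ ≤ _ := hcard'
    _ ≤ 1 / l * M ^ 2 + (ε * M ^ 2 + τ * M ^ 2) := add_le_add h1 (add_le_add h2 h3)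
    _ = (1 / l + ε + τ) * M ^ 2 := by ring

end GCP
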