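import Mathlib

/-!
# GCP-Sel: selection by averaging (Mathlib only)

PLAN. Suppose that for all `a ∈ I` and `v ∈ K a` we have `b * W < ∑ T ∈ 𝓣.filter (R v), w T`, `W = ∑ T ∈ 𝓣, w T`. Sum over `v ∈ K a` and divide by `(K a).card > 0`:
`b * W < ∑ T ∈ 𝓣, w T * ((K a).filter (fun v => R v T)).card / (K a).card` (exchange the sums: `∑ v ∈ K a, ∑ T ∈ 𝓣.filter (R v), w T = ∑ T ∈ 𝓣, w T * ((K a).filter (fun v => R v T)).card`,
`Finset.sum_filter`, `Finset.sum_comm`). Sum over `a ∈ I` (nonempty): `b * W * I.card < ∑ T ∈ 𝓣, w T * ∑ a ∈ I, .. / .. ≤ ∑ T ∈ 𝓣, w T * (b * I.card) = b * W * I.card`. Contradiction.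
-/

set_option autoImplicit false

open Finset

namespace GCP

open Classical in
theorem sel {α β γ : Type*} (I : Finset α) (hI : I.Nonempty) (K : α → Finset β)
    (hK : ∀ a ∈ I, (K a).Nonempty) (𝓣 : Finset γ) (R : β → γ → Prop) (b : ℝ)
    (h : ∀ T ∈ 𝓣, ∑ a ∈ I, (((K a).filter (fun v => R v T)).card : ℝ) / ((K a).card : ℝ) ≤ b * I.card)
    (w : γ → ℝ) (hw : ∀ T ∈ 𝓣, 0 ≤ w T) :
    ∃ a ∈ I, ∃ v ∈ K a, ∑ T ∈ 𝓣.filter (R v), w T ≤ b * ∑ T ∈ 𝓣, w T := by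
  by_contra hc
  push Not at hc
  have h1 : ∀ a ∈ I, b * ∑ T ∈ 𝓣, w T <
      ∑ T ∈ 𝓣, w T * ((((K a).filter (fun v => R v T)).card : ℝ) / ((K a).card : ℝ)) := by
    intro a ha
    have hk : (0 : ℝ) < ((K a).card : ℝ) := by exact_mod_cast (hK a ha).card_pos
    have h2 : ∑ v ∈ K a, (b * ∑ T ∈ 𝓣, w T) < ∑ v ∈ K a, ∑ T ∈ 𝓣.filter (R v), w T :=
      Finset.sum_lt_sum_of_nonempty (hK a ha) (hc a ha)
    have h3 : ∑ v ∈ K a, ∑ T ∈ 𝓣.filter (R v), w T =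
        ∑ T ∈ 𝓣, w T * (((K a).filter (fun v => R v T)).card : ℝ) := by
      calc ∑ v ∈ K a, ∑ T ∈ 𝓣.filter (R v), w T
          = ∑ v ∈ K a, ∑ T ∈ 𝓣, (if R v T then w T else 0) := by
            refine Finset.sum_congr rfl fun v _ => ?_
            rw [Finset.sum_filter]
        _ = ∑ T ∈ 𝓣, ∑ v ∈ K a, (if R v T then w T else 0) := Finset.sum_comm
        _ = ∑ T ∈ 𝓣, w T * (((K a).filter (fun v => R v T)).card : ℝ) := by
            refine Finset.sum_congr rfl fun T _ => ?_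
            rw [← Finset.sum_filter, Finset.sum_const, nsmul_eq_mul, mul_comm]
    rw [h3, Finset.sum_const, nsmul_eq_mul, mul_comm, ← lt_div_iff₀ hk, Finset.sum_div] at h2
    refine h2.trans_le (le_of_eq ?_)
    refine Finset.sum_congr rfl fun T _ => ?_
    rw [mul_div_assoc]
  have h4 : ∑ a ∈ I, (b * ∑ T ∈ 𝓣, w T) < ∑ a ∈ I,
      ∑ T ∈ 𝓣, w T * ((((K a).filter (fun v => R v T)).card : ℝ) / ((K a).card : ℝ)) :=
    Finset.sum_lt_sum_of_nonempty hI h1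
  rw [Finset.sum_comm] at h4
  have h5 : ∑ T ∈ 𝓣, ∑ a ∈ I,
      w T * ((((K a).filter (fun v => R v T)).card : ℝ) / ((K a).card : ℝ)) ≤
      ∑ T ∈ 𝓣, w T * (b * I.card) := by
    refine Finset.sum_le_sum fun T hT => ?_
    rw [← Finset.mul_sum]
    exact mul_le_mul_of_nonneg_left (h T hT) (hw T hT)
  rw [Finset.sum_const, nsmul_eq_mul] at h4
  rw [← Finset.sum_mul] at h5
  have h6 : (I.card : ℝ) * (b * ∑ T ∈ 𝓣, w T) = (∑ T ∈ 𝓣, w T) * (b * I.card) := by ring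
  linarith

end GCP
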