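import Pool.Agent.GCP.Tup
import Pool.Agent.GCP.Bad
import Pool.Agent.GCP.Avg
import Pool.Agent.GCP.Sel
import Pool.Agent.GCP.Reg

/-!
# GCP-Hit: for every weight on the large sets some clique meets almost all of them
-/

set_option autoImplicit false

open Finset

namespace GCP

private lemma Hit_dn_le_one {n : ℕ} (G : SimpleGraph (Fin n)) (U V : Finset (Fin n)) :
    dn G U V ≤ 1 := by
  classical
  unfold dn
  refine div_le_one_of_le₀ ?_ (by positivity)
  have : edg G U V ≤ U.card * V.card := by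
    unfold edg
    rw [← Finset.card_product]
    exact Finset.card_filter_le _ _
  exact_mod_cast this

open Classical in
private lemma Hit_core {n m : ℕ} (hn : 0 < n) (G : SimpleGraph (Fin n))
    (P : Finpartition (univ : Finset (Fin n))) (hP : P.IsEquipartition) (hne : P.parts.Nonempty)
    (e ε θ η : ℝ) (he1 : e ≤ 1) (hε : 0 ≤ ε) (hθ0 : 0 < θ) (hθ1 : θ ≤ 1 / 2)
    (hη0 : 0 < η) (hη1 : η ≤ 1) (hθ : m ^ 2 * ε ≤ θ * η ^ (m ^ 2)) (b : ℝ)
    (hbad : (((P.parts ×ˢ P.parts).filter (fun q => BadP G ε η q.1 q.2)).card : ℝ) ≤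
        b * P.parts.card ^ 2) (hb : m ^ 2 * b ≤ 1 / 2)
    (w : Finset (Fin n) → ℝ) (hw : ∀ T, 0 ≤ w T) :
    ∃ Q : Finset (Fin n), (∀ u ∈ Q, ∀ v ∈ Q, u ≠ v → G.Adj u v) ∧
      ∑ T ∈ univ.filter (fun T : Finset (Fin n) => e * n ≤ T.card ∧ Disjoint Q T), w T ≤
        (4 * (1 - e / 2) ^ m + 2 * θ) *
          ∑ T ∈ univ.filter (fun T : Finset (Fin n) => e * n ≤ T.card), w T := by
  set M : ℝ := (P.parts.card : ℝ) with hM
  have hM0 : 0 < M := by
    rw [hM]; exact_mod_cast hne.card_pos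
  set I := (Fintype.piFinset (fun _ : Fin m => P.parts)).filter
    (fun τ => ¬ ∃ i j, i < j ∧ BadP G ε η (τ i) (τ j)) with hI
  have hcard : ((Fintype.piFinset (fun _ : Fin m => P.parts)).card : ℝ) = M ^ m := by
    rw [Fintype.card_piFinset]
    simp [hM]
  have hIc : M ^ m / 2 ≤ (I.card : ℝ) := by
    have h1 := bad P.parts (BadP G ε η) m b hbad
    have h2 := Finset.card_filter_add_card_filter_not (s := Fintype.piFinset (fun _ : Fin m => P.parts))
      (fun τ => ∃ i j, i < j ∧ BadP G ε η (τ i) (τ j))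
    have h3 : (((Fintype.piFinset (fun _ : Fin m => P.parts)).filter
        (fun τ => ∃ i j, i < j ∧ BadP G ε η (τ i) (τ j))).card : ℝ) + I.card = M ^ m := by
      rw [← hcard, ← h2]; push_cast; rfl
    have h4 : (m : ℝ) ^ 2 * b * M ^ m ≤ 1 / 2 * M ^ m :=
      mul_le_mul_of_nonneg_right hb (by positivity)
    rw [← hM] at h1
    linarith
  have hMm : 0 < M ^ m := pow_pos hM0 m
  have hIpos : (0 : ℝ) < I.card := by linarith
  have hIne : I.Nonempty := by
    rw [← Finset.card_pos]; exact_mod_cast hIpos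
  have hgood : ∀ τ ∈ I, 0 < (trans G τ).card ∧ ∀ T : Finset (Fin n),
      (((trans G τ).filter (fun v => ∀ i, v i ∉ T)).card : ℝ) ≤
        2 * ((∏ i, (((τ i \ T).card : ℝ) / ((τ i).card : ℝ))) + θ) * (trans G τ).card := by
    intro τ hτ
    rw [hI, Finset.mem_filter, Fintype.mem_piFinset] at hτ
    obtain ⟨hτ1, hτ2⟩ := hτ
    have hnb : ∀ i j, i < j → ¬ BadP G ε η (τ i) (τ j) := fun i j hij h => hτ2 ⟨i, j, hij, h⟩
    refine tup G τ (fun i => P.nonempty_of_mem_parts (hτ1 i)) ε θ η hε hθ0 hθ1 hη0 hη1 hθ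
      (fun i j => dn G (τ i) (τ j)) ?_ ?_
    · intro i j hij
      have := hnb i j hij
      simp only [BadP, not_or, not_lt, not_not] at this
      exact ⟨this.2.2, Hit_dn_le_one _ _ _⟩
    · intro i j hij
      have := hnb i j hij
      simp only [BadP, not_or, not_lt, not_not] at this
      exact this.2.1
  have h1e : 0 ≤ 1 - e / 2 := by linarith
  obtain ⟨τ, hτ, v, hv, hle⟩ := sel I hIne (fun τ => trans G τ)
    (fun τ hτ => Finset.card_pos.1 (hgood τ hτ).1)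
    (univ.filter (fun T : Finset (Fin n) => e * n ≤ T.card))
    (fun (v : Fin m → Fin n) (T : Finset (Fin n)) => ∀ i, v i ∉ T)
    (4 * (1 - e / 2) ^ m + 2 * θ) (by
      intro T hT
      have hT' : e * n ≤ T.card := (Finset.mem_filter.1 hT).2
      have key : ∑ τ ∈ I, (((trans G τ).filter (fun v => ∀ i, v i ∉ T)).card : ℝ) /
          ((trans G τ).card : ℝ) ≤ (4 * (1 - e / 2) ^ m + 2 * θ) * I.card := by
        have k1 : ∑ τ ∈ I, (((trans G τ).filter (fun v => ∀ i, v i ∉ T)).card : ℝ) /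
            ((trans G τ).card : ℝ) ≤
            ∑ τ ∈ I, 2 * ((∏ i, (((τ i \ T).card : ℝ) / ((τ i).card : ℝ))) + θ) := by
          refine Finset.sum_le_sum fun τ hτ => ?_
          rw [div_le_iff₀ (by exact_mod_cast (hgood τ hτ).1)]
          exact (hgood τ hτ).2 T
        have k2 : ∑ τ ∈ I, 2 * ((∏ i, (((τ i \ T).card : ℝ) / ((τ i).card : ℝ))) + θ) =
            2 * (∑ τ ∈ I, ∏ i, (((τ i \ T).card : ℝ) / ((τ i).card : ℝ))) + 2 * θ * I.card := by
          rw [← Finset.mul_sum, Finset.sum_add_distrib, Finset.sum_const, nsmul_eq_mul]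
          ring
        have h5 : ∑ τ ∈ I, ∏ i, (((τ i \ T).card : ℝ) / ((τ i).card : ℝ)) ≤
            ∑ τ ∈ Fintype.piFinset (fun _ : Fin m => P.parts),
              ∏ i, (((τ i \ T).card : ℝ) / ((τ i).card : ℝ)) :=
          Finset.sum_le_sum_of_subset_of_nonneg (Finset.filter_subset _ _)
            fun τ _ _ => Finset.prod_nonneg fun i _ => by positivity
        have h6 := avg hn P hP m T e hT'
        have h6' : ((1 - e / 2) * (P.parts.card : ℝ)) ^ m = (1 - e / 2) ^ m * M ^ m := by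
          rw [← hM, mul_pow]
        rw [h6'] at h6
        have h7 : 0 ≤ (1 - e / 2) ^ m := pow_nonneg h1e m
        have h8 := mul_le_mul_of_nonneg_left hIc h7
        rw [k2] at k1
        nlinarith
      refine le_trans (le_of_eq ?_) key
      refine Finset.sum_congr rfl fun τ _ => ?_
      congr!)
    w (fun T _ => hw T)
  refine ⟨univ.image v, ?_, ?_⟩
  · intro x hx y hy hxy
    obtain ⟨i, -, rfl⟩ := Finset.mem_image.1 hx
    obtain ⟨j, -, rfl⟩ := Finset.mem_image.1 hy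
    have hij : i ≠ j := fun h => hxy (by rw [h])
    have hv2 := (Finset.mem_filter.1 hv).2
    rcases lt_or_gt_of_ne hij with h | h
    · exact hv2 i j h
    · exact (hv2 j i h).symm
  · refine le_trans (le_of_eq ?_) hle
    refine Finset.sum_congr ?_ fun _ _ => rfl
    ext T
    simp only [Finset.mem_filter, Finset.mem_univ, true_and, Finset.disjoint_left,
      Finset.mem_image]
    constructor
    · rintro ⟨h1, h2⟩
      exact ⟨h1, fun i => h2 ⟨i, rfl⟩⟩
    · rintro ⟨h1, h2⟩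
      refine ⟨h1, ?_⟩
      rintro x ⟨i, rfl⟩
      exact h2 i

open Classical in
/-- one clique which meets almost all of the weight of the sets with at least `e n` elements -/
theorem hitting (e : ℝ) (he : 0 < e) (he1 : e ≤ 1) (L : ℕ) :
    ∃ τ : ℝ, 0 < τ ∧ ∀ η : ℝ, 0 < η → η ≤ 1 → ∃ N n0 : ℕ, ∀ n ≥ n0, ∀ G : SimpleGraph (Fin n),
      Dense G τ η N → ∀ w : Finset (Fin n) → ℝ, (∀ T, 0 ≤ w T) →
      ∃ Q : Finset (Fin n), (∀ u ∈ Q, ∀ v ∈ Q, u ≠ v → G.Adj u v) ∧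
        2 ^ L * ∑ T ∈ univ.filter (fun T : Finset (Fin n) => e * n ≤ T.card ∧ Disjoint Q T), w T ≤
          ∑ T ∈ univ.filter (fun T : Finset (Fin n) => e * n ≤ T.card), w T := by
  obtain ⟨m, hm⟩ := exists_pow_lt_of_lt_one (show (0 : ℝ) < (1 / 2) ^ (L + 1) / 4 by positivity)
    (show 1 - e / 2 < 1 by linarith)
  set k : ℝ := (m : ℝ) ^ 2 + 1 with hk
  have hk0 : 0 < k := by positivity
  set θ : ℝ := (1 / 2) ^ (L + 2) with hθ
  have hθ0 : 0 < θ := by positivity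
  have hθ1 : θ ≤ 1 / 2 := by
    rw [hθ]
    calc ((1 : ℝ) / 2) ^ (L + 2) ≤ (1 / 2) ^ 1 :=
        pow_le_pow_of_le_one (by norm_num) (by norm_num) (by omega)
      _ = 1 / 2 := by norm_num
  refine ⟨1 / (6 * k), by positivity, fun η hη0 hη1 => ?_⟩
  set ε : ℝ := min (1 / (6 * k)) (θ * η ^ (m ^ 2) / k) with hε
  have hε0 : 0 < ε := lt_min (by positivity) (by positivity)
  have hk1 : 1 ≤ k := by
    rw [hk]; nlinarith [sq_nonneg (m : ℝ)]
  have hε1 : ε ≤ 1 := by
    refine (min_le_left _ _).trans ?_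
    rw [div_le_one (by positivity)]
    linarith
  obtain ⟨N, hN⟩ := reg ε hε0 hε1 (6 * (m ^ 2 + 1)) (by positivity)
  refine ⟨N, 6 * (m ^ 2 + 1), fun n hn G hG w hw => ?_⟩
  obtain ⟨P, hP, hne, hbad⟩ := hN n hn G (1 / (6 * k)) η hG
  have hn0 : 0 < n := lt_of_lt_of_le (by positivity) hn
  have hb : ((m : ℝ) ^ 2) * (1 / ((6 * (m ^ 2 + 1) : ℕ) : ℝ) + ε + 1 / (6 * k)) ≤ 1 / 2 := by
    have h1 : ((6 * (m ^ 2 + 1) : ℕ) : ℝ) = 6 * k := by
      rw [hk]; push_cast; ring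
    rw [h1]
    have h2 : ε ≤ 1 / (6 * k) := min_le_left _ _
    have h3 : (m : ℝ) ^ 2 * (1 / (6 * k)) ≤ 1 / 6 := by
      rw [mul_one_div, div_le_div_iff₀ (by positivity) (by norm_num), hk]
      nlinarith [sq_nonneg (m : ℝ)]
    nlinarith [mul_le_mul_of_nonneg_left h2 (sq_nonneg (m : ℝ))]
  have hθ' : (m : ℝ) ^ 2 * ε ≤ θ * η ^ (m ^ 2) := by
    have h2 : ε ≤ θ * η ^ (m ^ 2) / k := min_le_right _ _
    have h3 : 0 < θ * η ^ (m ^ 2) := by positivity
    calc (m : ℝ) ^ 2 * ε ≤ k * (θ * η ^ (m ^ 2) / k) :=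
        mul_le_mul (by rw [hk]; linarith) h2 hε0.le hk0.le
      _ = θ * η ^ (m ^ 2) := by field_simp
  obtain ⟨Q, hQ1, hQ2⟩ := Hit_core (m := m) hn0 G P hP hne e ε θ η he1 hε0.le hθ0 hθ1 hη0 hη1 hθ' _
    hbad hb w hw
  refine ⟨Q, hQ1, ?_⟩
  have hW : 0 ≤ ∑ T ∈ univ.filter (fun T : Finset (Fin n) => e * n ≤ T.card), w T :=
    Finset.sum_nonneg fun T _ => hw T
  have hb2 : 4 * (1 - e / 2) ^ m + 2 * θ ≤ (1 / 2) ^ L := by
    have h1 : 4 * (1 - e / 2) ^ m ≤ (1 / 2) ^ (L + 1) := by linarith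
    have h2 : 2 * θ = (1 / 2) ^ (L + 1) := by rw [hθ]; ring
    have h3 : ((1 : ℝ) / 2) ^ L = (1 / 2) ^ (L + 1) + (1 / 2) ^ (L + 1) := by ring
    linarith
  calc 2 ^ L * ∑ T ∈ univ.filter (fun T : Finset (Fin n) => e * n ≤ T.card ∧ Disjoint Q T), w T
      ≤ 2 ^ L * ((1 / 2) ^ L * ∑ T ∈ univ.filter (fun T : Finset (Fin n) => e * n ≤ T.card), w T) := by
        refine mul_le_mul_of_nonneg_left (hQ2.trans ?_) (by positivity)
        exact mul_le_mul_of_nonneg_right hb2 hW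
    _ = ∑ T ∈ univ.filter (fun T : Finset (Fin n) => e * n ≤ T.card), w T := by
        rw [← mul_assoc, ← mul_pow]
        norm_num

end GCP
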