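import Pool.Agent.GCP.One
import Pool.Agent.GCP.Deg
import Pool.Agent.GCP.Grph

/-!
# GCP-Main: assembly (helper92)
-/

set_option autoImplicit false

open Finset

namespace GCP

/-- the sum of two ranks -/
theorem two (ε : ℝ) (hε : 0 < ε) : ∃ τ : ℝ, 0 < τ ∧ ∀ η : ℝ, 0 < η → η ≤ 1 → ∃ N n0 : ℕ, 0 < N ∧ ∀ n ≥ n0,
    ∀ G : SimpleGraph (Fin n), Dense G τ η N → Dense Gᶜ τ η N →
    ∃ d d' : ℕ, MrGC.PR Gᶜ d ∧ MrGC.PR G d' ∧ (d : ℝ) + d' ≤ (1 + ε) * n := by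
  obtain ⟨τ, hτ, h⟩ := one (ε / 2) (by positivity)
  refine ⟨τ, hτ, fun η hη0 hη1 => ?_⟩
  obtain ⟨N, n0, hN⟩ := h η hη0 hη1
  refine ⟨N + 1, max n0 1, Nat.succ_pos _, fun n hn G hG hG' => ?_⟩
  have hn0 : n0 ≤ n := (le_max_left _ _).trans hn
  have hn1 : 0 < n := (le_max_right _ _).trans hn
  have hmono : ∀ G' : SimpleGraph (Fin n), Dense G' τ η (N + 1) → Dense G' τ η N :=
    fun G' h P hP hc => h P hP (hc.trans (Nat.le_succ _))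
  obtain ⟨D, D', hDD, hD, hD'⟩ := degen_sum hn1 G
  obtain ⟨d, hd1, hd2⟩ := hN n hn0 G (hmono _ hG) D' (by omega) hD'
  obtain ⟨d', hd1', hd2'⟩ := hN n hn0 Gᶜ (hmono _ hG') D (by omega) (by rwa [compl_compl])
  rw [compl_compl] at hd1'
  refine ⟨d, d', hd1, hd1', ?_⟩
  have h1 : (D : ℝ) + D' + 1 ≤ n := by exact_mod_cast hDD
  linarith

/-- all pairs of linear size sets have density bounded away from `0` and `1` -/
theorem final_rect (ε γ : ℝ) (hε : 0 < ε) (hγ : 0 < γ) : ∃ δ : ℝ, 0 < δ ∧ ∃ n0 : ℕ, ∀ n ≥ n0,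
    ∀ G : SimpleGraph (Fin n),
    (∀ X Y : Finset (Fin n), Disjoint X Y → δ * n ≤ X.card → δ * n ≤ Y.card →
      γ * (X.card * Y.card) ≤ edg G X Y ∧ (edg G X Y : ℝ) ≤ (1 - γ) * (X.card * Y.card)) →
    ∃ d d' : ℕ, MrGC.PR Gᶜ d ∧ MrGC.PR G d' ∧ (d : ℝ) + d' ≤ (1 + ε) * n := by
  obtain ⟨τ, hτ, h⟩ := two ε hε
  set η : ℝ := min γ 1 with hη
  have hη0 : 0 < η := lt_min hγ one_pos
  obtain ⟨N, n0, hN, h2⟩ := h η hη0 (min_le_right _ _)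
  have hN' : (0 : ℝ) < N := by exact_mod_cast hN
  refine ⟨1 / (2 * N), by positivity, max n0 N, fun n hn G hG => ?_⟩
  have hn0 : n0 ≤ n := (le_max_left _ _).trans hn
  have hnN : N ≤ n := (le_max_right _ _).trans hn
  have hle : η ≤ γ := min_le_left _ _
  refine h2 n hn0 G ?_ ?_
  · refine rect hN hnN G τ η hτ.le fun X Y hXY hX hY => ?_
    have h3 := (hG X Y hXY (by rw [one_div_mul_eq_div]; exact hX) (by rw [one_div_mul_eq_div]; exact hY)).1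
    refine le_trans ?_ h3
    exact mul_le_mul_of_nonneg_right hle (by positivity)
  · refine rectc hN hnN G τ η hτ.le fun X Y hXY hX hY => ?_
    have h3 := (hG X Y hXY (by rw [one_div_mul_eq_div]; exact hX) (by rw [one_div_mul_eq_div]; exact hY)).2
    refine le_trans h3 ?_
    exact mul_le_mul_of_nonneg_right (by linarith) (by positivity)

open MeasureTheory in
/-- graphs close to a graphon which is almost nowhere `0` or `1` -/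
theorem final_grph (ε : ℝ) (hε : 0 < ε) : ∃ τ : ℝ, 0 < τ ∧ ∀ W : ℝ × ℝ → ℝ, Measurable W →
    (∀ᵐ p ∂(volume.restrict (Set.Icc (0 : ℝ) 1 ×ˢ Set.Icc (0 : ℝ) 1)), 0 ≤ W p ∧ W p ≤ 1) →
    (volume.restrict (Set.Icc (0 : ℝ) 1 ×ˢ Set.Icc (0 : ℝ) 1)).real {p | W p ≤ 0 ∨ 1 ≤ W p} ≤ τ →
    ∃ δ : ℝ, 0 < δ ∧ ∃ n0 : ℕ, ∀ n ≥ n0, ∀ G : SimpleGraph (Fin n), Near W δ G →
    ∃ d d' : ℕ, MrGC.PR Gᶜ d ∧ MrGC.PR G d' ∧ (d : ℝ) + d' ≤ (1 + ε) * n := by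
  obtain ⟨τ, hτ, h⟩ := two ε hε
  refine ⟨τ / 16, by positivity, fun W hW h0 hz => ?_⟩
  obtain ⟨η, hη0, hη1, h1⟩ := grph W hW h0 τ hτ hz
  obtain ⟨N, n0, hN, h2⟩ := h η hη0 hη1
  obtain ⟨δ, hδ, n1, h3⟩ := h1 N
  refine ⟨δ, hδ, max n0 n1, fun n hn G hG => ?_⟩
  obtain ⟨h4, h5⟩ := h3 n ((le_max_right _ _).trans hn) G hG
  exact h2 n ((le_max_left _ _).trans hn) G h4 h5

end GCP
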