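import Pool.Agent.GCP.Defs

/-!
# GCP-Pot: greedy choice of the cliques with an exponential potential

PLAN. `𝓣 = univ.filter p` is the set of the sets `T` with `p T`. Build the family one by one (induction on `d`):
for every `d` there is `Q : Fin d → Finset (Fin n)` with all `Q j` satisfying `C` and
`∑ T ∈ 𝓣, (2 ^ L) ^ a(T) ≤ 2 ^ d * 2 ^ n`, where `a(T) = (univ.filter (fun j => Disjoint (Q j) T)).card`.
`d = 0`: the sum is the number of `T ∈ 𝓣`, at most `2 ^ n`. Step: apply `hK` with `w T = (2 ^ L) ^ a(T)`, get `Q'`; put `Fin.snoc Q Q'` (or `Fin.cons`);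
the new sum is `∑_{T hit by Q'} w T + ∑_{T disjoint to Q'} 2 ^ L * w T ≤ ∑ w + ∑ w = 2 ∑ w`.
For one `T ∈ 𝓣` then `(2 ^ L) ^ a(T) ≤ 2 ^ (d + n)`, so `L * a(T) ≤ n + d` (`pow_le_pow_iff_right₀`).
-/

set_option autoImplicit false

open Finset

namespace GCP

open Classical in
theorem pot {n : ℕ} (C : Finset (Fin n) → Prop) (p : Finset (Fin n) → Prop) (L : ℕ)
    (hK : ∀ w : Finset (Fin n) → ℝ, (∀ T, 0 ≤ w T) → ∃ Q, C Q ∧
      2 ^ L * ∑ T ∈ univ.filter (fun T => p T ∧ Disjoint Q T), w T ≤ ∑ T ∈ univ.filter p, w T)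
    (d : ℕ) : ∃ Q : Fin d → Finset (Fin n), (∀ j, C (Q j)) ∧
      ∀ T, p T → L * (univ.filter (fun j => Disjoint (Q j) T)).card ≤ n + d := by
  have key : ∀ d : ℕ, ∃ Q : Fin d → Finset (Fin n), (∀ j, C (Q j)) ∧
      ∑ T ∈ univ.filter p, ((2 : ℝ) ^ L) ^ (univ.filter (fun j => Disjoint (Q j) T)).card ≤
        2 ^ d * 2 ^ n := by
    intro d
    induction d with
    | zero =>
      refine ⟨fun j => j.elim0, fun j => j.elim0, ?_⟩
      have h1 : ∑ T ∈ univ.filter p, ((2 : ℝ) ^ L) ^
          (univ.filter (fun j : Fin 0 => Disjoint ((j.elim0 : Finset (Fin n))) T)).card =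
          ((univ.filter p).card : ℝ) := by
        rw [Finset.card_eq_sum_ones, Nat.cast_sum]
        refine Finset.sum_congr rfl fun T _ => ?_
        have h0 : (univ.filter (fun j : Fin 0 =>
            Disjoint ((j.elim0 : Finset (Fin n))) T)) = ∅ := Finset.eq_empty_of_isEmpty _
        rw [h0]
        simp
      rw [h1]
      have h2 : (univ.filter p).card ≤ 2 ^ n := by
        have h3 := Finset.card_le_univ (univ.filter p)
        rwa [Fintype.card_finset, Fintype.card_fin] at h3
      have h4 : ((univ.filter p).card : ℝ) ≤ ((2 ^ n : ℕ) : ℝ) := by exact_mod_cast h2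
      push_cast at h4
      linarith
    | succ d ih =>
      obtain ⟨Q, hQ, hs⟩ := ih
      obtain ⟨Q', hC, hle⟩ := hK
        (fun T => ((2 : ℝ) ^ L) ^ (univ.filter (fun j => Disjoint (Q j) T)).card)
        (fun T => by positivity)
      refine ⟨Fin.snoc (α := fun _ => Finset (Fin n)) Q Q', ?_, ?_⟩
      · intro j
        refine Fin.lastCases ?_ (fun i => ?_) j
        · rw [Fin.snoc_last]; exact hC
        · rw [Fin.snoc_castSucc]; exact hQ i
      · have hcard : ∀ T : Finset (Fin n), (univ.filter (fun j : Fin (d + 1) =>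
            Disjoint ((Fin.snoc (α := fun _ => Finset (Fin n)) Q Q' :
              Fin (d + 1) → Finset (Fin n)) j) T)).card =
            (univ.filter (fun j : Fin d => Disjoint (Q j) T)).card +
              (if Disjoint Q' T then 1 else 0) := by
          intro T
          rw [Finset.card_filter, Fin.sum_univ_castSucc, Finset.card_filter]
          simp only [Fin.snoc_castSucc, Fin.snoc_last]
        have hle' : ∑ T ∈ univ.filter p, ((2 : ℝ) ^ L) ^ (univ.filter (fun j : Fin (d + 1) =>
            Disjoint ((Fin.snoc (α := fun _ => Finset (Fin n)) Q Q' :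
              Fin (d + 1) → Finset (Fin n)) j) T)).card ≤
            ∑ T ∈ univ.filter p, (((2 : ℝ) ^ L) ^ (univ.filter (fun j => Disjoint (Q j) T)).card +
              if Disjoint Q' T then
                2 ^ L * ((2 : ℝ) ^ L) ^ (univ.filter (fun j => Disjoint (Q j) T)).card else 0) := by
          refine Finset.sum_le_sum fun T _ => ?_
          rw [hcard T]
          by_cases hd : Disjoint Q' T
          · rw [if_pos hd, if_pos hd, pow_succ]
            have h5 : (0 : ℝ) ≤ ((2 : ℝ) ^ L) ^ (univ.filter (fun j => Disjoint (Q j) T)).card := by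
              positivity
            nlinarith
          · rw [if_neg hd, if_neg hd, add_zero, add_zero]
        have hsplit : ∑ T ∈ univ.filter p, (((2 : ℝ) ^ L) ^
              (univ.filter (fun j => Disjoint (Q j) T)).card +
              if Disjoint Q' T then
                2 ^ L * ((2 : ℝ) ^ L) ^ (univ.filter (fun j => Disjoint (Q j) T)).card else 0) =
            ∑ T ∈ univ.filter p, ((2 : ℝ) ^ L) ^ (univ.filter (fun j => Disjoint (Q j) T)).card +
            2 ^ L * ∑ T ∈ univ.filter (fun T => p T ∧ Disjoint Q' T),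
              ((2 : ℝ) ^ L) ^ (univ.filter (fun j => Disjoint (Q j) T)).card := by
          rw [Finset.sum_add_distrib, Finset.mul_sum]
          congr 1
          rw [← Finset.filter_filter, Finset.sum_filter (s := univ.filter p)]
        have h6 : (2 : ℝ) ^ (d + 1) * 2 ^ n = 2 * (2 ^ d * 2 ^ n) := by ring
        have hle2 : 2 ^ L * ∑ T ∈ univ.filter (fun T => p T ∧ Disjoint Q' T),
              ((2 : ℝ) ^ L) ^ (univ.filter (fun j => Disjoint (Q j) T)).card ≤
            ∑ T ∈ univ.filter p, ((2 : ℝ) ^ L) ^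
              (univ.filter (fun j => Disjoint (Q j) T)).card := hle
        rw [h6]
        linarith [hle', hsplit, hle2, hs]
  obtain ⟨Q, hQ, hs⟩ := key d
  refine ⟨Q, hQ, fun T hT => ?_⟩
  have h7 : ((2 : ℝ) ^ L) ^ (univ.filter (fun j => Disjoint (Q j) T)).card ≤ 2 ^ d * 2 ^ n :=
    le_trans (Finset.single_le_sum
      (f := fun T => ((2 : ℝ) ^ L) ^ (univ.filter (fun j => Disjoint (Q j) T)).card)
      (fun T _ => by positivity) (Finset.mem_filter.2 ⟨Finset.mem_univ T, hT⟩)) hs
  rw [← pow_mul, ← pow_add] at h7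
  have h8 := (pow_le_pow_iff_right₀ (by norm_num : (1 : ℝ) < 2)).1 h7
  omega

end GCP
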