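import Pool.Agent.GCP.Defs

/-!
# GCP-Rect: if all pairs of disjoint linear size sets have density at least `γ` then the graph is dense in the sense of `Dense`

`rect`: let `P` be an equipartition with `M ≤ N` parts. If the filtered set is nonempty take a member `(U, V)`: `U ≠ V` parts, disjoint (`P.disjoint`), of cardinality at least `n / M ≥ n / (2 N)` (as natural number
division `n / M ≤ U.card`: `Finpartition.IsEquipartition.average_le_card_part`; `n / M ≥ n / N` and `(n / N : ℕ) ≥ n / (2 N)` as a real number, because `n ≥ N` gives `n / N ≥ 1`, floor of `x ≥ 1` is `≥ x / 2`), so `≥ δ n` for `δ = 1 / (2 N)`, and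
`h` contradicts the strict inequality. So the set is empty and its cardinality `0 ≤ τ M ^ 2`.
`rectc`: `edg Gᶜ X Y = |X| |Y| - edg G X Y` for disjoint `X`, `Y`, then `rect` for `Gᶜ`.
-/

set_option autoImplicit false

open Finset

namespace GCP

theorem edg_compl {n : ℕ} (G : SimpleGraph (Fin n)) {X Y : Finset (Fin n)} (h : Disjoint X Y) :
    (edg Gᶜ X Y : ℝ) = X.card * Y.card - edg G X Y := by
  classical
  have h1 : edg Gᶜ X Y = ((X ×ˢ Y).filter (fun p => ¬ G.Adj p.1 p.2)).card := by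
    unfold edg
    congr 1
    ext p
    simp only [mem_filter, mem_product, SimpleGraph.compl_adj]
    refine ⟨fun hp => ⟨hp.1, hp.2.2⟩, fun hp => ⟨hp.1, ?_, hp.2⟩⟩
    intro he
    exact (Finset.disjoint_left.1 h hp.1.1) (he ▸ hp.1.2)
  have h2 : edg G X Y + ((X ×ˢ Y).filter (fun p => ¬ G.Adj p.1 p.2)).card =
      X.card * Y.card := by
    rw [← Finset.card_product]
    have h3 := Finset.card_filter_add_card_filter_not (s := X ×ˢ Y)
      (fun p : Fin n × Fin n => G.Adj p.1 p.2)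
    rw [← h3]
    unfold edg
    congr!
  rw [h1]
  have h4 : ((edg G X Y : ℕ) : ℝ) + (((X ×ˢ Y).filter (fun p => ¬ G.Adj p.1 p.2)).card : ℝ) =
      X.card * Y.card := by exact_mod_cast h2
  linarith

theorem rect {n N : ℕ} (hN : 0 < N) (hn : N ≤ n) (G : SimpleGraph (Fin n)) (τ γ : ℝ) (hτ : 0 ≤ τ)
    (h : ∀ X Y : Finset (Fin n), Disjoint X Y → (n : ℝ) / (2 * N) ≤ X.card →
      (n : ℝ) / (2 * N) ≤ Y.card → γ * (X.card * Y.card) ≤ edg G X Y) : Dense G τ γ N := by
  classical
  intro P hP hPN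
  have hbig : ∀ U ∈ P.parts, (n : ℝ) / (2 * N) ≤ U.card := by
    intro U hU
    have h1 := hP.average_le_card_part hU
    rw [Finset.card_univ, Fintype.card_fin] at h1
    have hM : 0 < P.parts.card := Finset.card_pos.2 ⟨U, hU⟩
    have h2 : n / N ≤ n / P.parts.card := Nat.div_le_div_left hPN hM
    have h3 : n / N ≤ U.card := h2.trans h1
    have h4 : 1 ≤ n / N := (Nat.one_le_div_iff hN).2 hn
    have h5 : n < N * (n / N + 1) := Nat.lt_mul_div_succ n hN
    have h6 : n ≤ U.card * (2 * N) := by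
      calc n ≤ N * (n / N + 1) := h5.le
        _ ≤ N * (2 * (n / N)) := Nat.mul_le_mul_left _ (by omega)
        _ ≤ N * (2 * U.card) := Nat.mul_le_mul_left _ (Nat.mul_le_mul_left _ h3)
        _ = U.card * (2 * N) := by ring
    have hN' : (0 : ℝ) < 2 * N := by positivity
    rw [div_le_iff₀ hN']
    exact_mod_cast h6
  have h0 : ((P.parts ×ˢ P.parts).filter (fun q => q.1 ≠ q.2 ∧
      (edg G q.1 q.2 : ℝ) < γ * (q.1.card * q.2.card))).card = 0 := by
    rw [Finset.card_eq_zero, Finset.filter_eq_empty_iff]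
    rintro ⟨U, V⟩ hUV ⟨hne, hlt⟩
    rw [Finset.mem_product] at hUV
    have hd : Disjoint U V := P.disjoint hUV.1 hUV.2 hne
    exact absurd (h U V hd (hbig U hUV.1) (hbig V hUV.2)) (not_le.2 hlt)
  have h1 : (0 : ℝ) ≤ τ * (P.parts.card : ℝ) ^ 2 := mul_nonneg hτ (by positivity)
  refine le_trans (le_of_eq ?_) h1
  rw [Nat.cast_eq_zero]
  convert h0

theorem rectc {n N : ℕ} (hN : 0 < N) (hn : N ≤ n) (G : SimpleGraph (Fin n)) (τ γ : ℝ) (hτ : 0 ≤ τ)
    (h : ∀ X Y : Finset (Fin n), Disjoint X Y → (n : ℝ) / (2 * N) ≤ X.card →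
      (n : ℝ) / (2 * N) ≤ Y.card → (edg G X Y : ℝ) ≤ (1 - γ) * (X.card * Y.card)) :
    Dense Gᶜ τ γ N := by
  refine rect hN hn Gᶜ τ γ hτ ?_
  intro X Y hd hX hY
  rw [edg_compl G hd]
  have := h X Y hd hX hY
  linarith

end GCP
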