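import Pool.Agent.GCP.Count

/-!
# GCP-Tup: transversal cliques of a good tuple which avoid a set

Two applications of the counting lemma `count`: to the parts `P i` and to the parts `P i \ T`.
-/

set_option autoImplicit false

open Finset

namespace GCP

private theorem tup_prs_card (m : ℕ) : (prs m).card ≤ m ^ 2 := by
  unfold prs
  refine (Finset.card_le_univ _).trans ?_
  simp [sq]

open Classical in
private theorem tup_filter {n m : ℕ} (G : SimpleGraph (Fin n)) (P : Fin m → Finset (Fin n))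
    (T : Finset (Fin n)) :
    (trans G P).filter (fun v => ∀ i, v i ∉ T) = trans G (fun i => P i \ T) := by
  ext v
  unfold trans
  simp only [mem_filter, Fintype.mem_piFinset, mem_sdiff]
  constructor
  · rintro ⟨⟨h1, h2⟩, h3⟩
    exact ⟨fun i => ⟨h1 i, h3 i⟩, h2⟩
  · rintro ⟨h1, h2⟩
    exact ⟨⟨fun i => (h1 i).1, h2⟩, fun i => (h1 i).2⟩

open Classical in
theorem tup {n m : ℕ} (G : SimpleGraph (Fin n)) (P : Fin m → Finset (Fin n))
    (hP : ∀ i, (P i).Nonempty) (ε θ η : ℝ) (hε : 0 ≤ ε) (hθ0 : 0 < θ) (hθ1 : θ ≤ 1 / 2)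
    (hη0 : 0 < η) (hη1 : η ≤ 1) (hθ : m ^ 2 * ε ≤ θ * η ^ (m ^ 2)) (d : Fin m → Fin m → ℝ)
    (hd : ∀ i j, i < j → η ≤ d i j ∧ d i j ≤ 1)
    (hcut : ∀ i j, i < j → Cut G (P i) (P j) ε (d i j)) :
    0 < (trans G P).card ∧ ∀ T : Finset (Fin n),
      (((trans G P).filter (fun v => ∀ i, v i ∉ T)).card : ℝ) ≤
        2 * ((∏ i, (((P i \ T).card : ℝ) / ((P i).card : ℝ))) + θ) * (trans G P).card := by
  have hd0 : ∀ i j, i < j → 0 ≤ d i j := fun i j h => hη0.le.trans (hd i j h).1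
  have hd1 : ∀ i j, i < j → d i j ≤ 1 := fun i j h => (hd i j h).2
  obtain ⟨D, hD⟩ : ∃ D : ℝ, D = ∏ p ∈ prs m, d p.1 p.2 := ⟨_, rfl⟩
  have hDlow : η ^ (m ^ 2) ≤ D := by
    calc η ^ (m ^ 2) ≤ η ^ (prs m).card := pow_le_pow_of_le_one hη0.le hη1 (tup_prs_card m)
      _ = ∏ p ∈ prs m, η := by rw [Finset.prod_const]
      _ ≤ D := by
        rw [hD]
        refine Finset.prod_le_prod (fun p _ => hη0.le) (fun p hp => ?_)
        exact (hd p.1 p.2 (by simpa [prs] using hp)).1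
  have hDpos : 0 < D := lt_of_lt_of_le (pow_pos hη0 _) hDlow
  obtain ⟨Vv, hV⟩ : ∃ Vv : ℝ, Vv = ∏ i, ((P i).card : ℝ) := ⟨_, rfl⟩
  have hVpos : 0 < Vv := by
    rw [hV]
    exact Finset.prod_pos fun i _ => by exact_mod_cast (hP i).card_pos
  have herr : (m : ℝ) ^ 2 * ε ≤ θ * D :=
    hθ.trans (mul_le_mul_of_nonneg_left hDlow hθ0.le)
  have herr' : (m : ℝ) ^ 2 * ε * Vv ≤ θ * D * Vv := mul_le_mul_of_nonneg_right herr hVpos.le
  have hK : (1 - θ) * (D * Vv) ≤ ((trans G P).card : ℝ) := by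
    have h1 := count G P P (fun i => Finset.Subset.refl _) ε hε d hd0 hd1 hcut
    rw [← hD, ← hV] at h1
    have h2 := (abs_le.1 h1).1
    linarith
  have hDV : 0 < D * Vv := mul_pos hDpos hVpos
  have hK2 : D * Vv ≤ 2 * ((trans G P).card : ℝ) := by nlinarith
  refine ⟨?_, fun T => ?_⟩
  · have h1 : (0 : ℝ) < ((trans G P).card : ℝ) := by nlinarith
    exact_mod_cast h1
  · rw [tup_filter]
    have h1 := count G P (fun i => P i \ T) (fun i => Finset.sdiff_subset) ε hε d hd0 hd1 hcut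
    rw [← hD, ← hV] at h1
    have h2 := (abs_le.1 h1).2
    rw [Finset.prod_div_distrib, ← hV]
    obtain ⟨R, hR⟩ : ∃ R : ℝ, R = ∏ i, ((P i \ T).card : ℝ) := ⟨_, rfl⟩
    rw [← hR] at h2 ⊢
    have hR0 : 0 ≤ R := by
      rw [hR]
      exact Finset.prod_nonneg fun i _ => Nat.cast_nonneg _
    have h3 : R / Vv * Vv = R := div_mul_cancel₀ R hVpos.ne'
    have h4 : 0 ≤ R / Vv := div_nonneg hR0 hVpos.le
    calc ((trans G (fun i => P i \ T)).card : ℝ) ≤ D * R + θ * D * Vv := by linarith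
      _ = (R / Vv + θ) * (D * Vv) := by
        rw [← h3]
        field_simp
      _ ≤ (R / Vv + θ) * (2 * ((trans G P).card : ℝ)) :=
        mul_le_mul_of_nonneg_left hK2 (by linarith)
      _ = 2 * (R / Vv + θ) * ((trans G P).card : ℝ) := by ring

end GCP
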